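import Mathlib

set_option autoImplicit false

open Set Filter Topology MeasureTheory Metric Complex
open scoped ENNReal Real

namespace Pool.Agent.P.MP_97162c_an

/-- The squared norm of a function continuous on a measurable set, cut off outside, is measurable. -/
theorem measurable_indicator_sq {X : Type*} [TopologicalSpace X] [MeasurableSpace X]
    [OpensMeasurableSpace X] {U : Set X} (hU : MeasurableSet U) {h : X → ℂ}
    (hh : ContinuousOn h U) : Measurable (U.indicator fun x => ‖h x‖ₑ ^ 2) := by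
  classical
  have h1 : Measurable (U.piecewise h fun _ => 0) :=
    ContinuousOn.measurable_piecewise hh continuousOn_const hU
  have h2 : (U.indicator fun x => ‖h x‖ₑ ^ 2) =
      fun x => ‖(U.piecewise h fun _ => 0) x‖ₑ ^ 2 := by
    ext x
    by_cases hx : x ∈ U <;> simp [hx]
  rw [h2]
  exact h1.enorm.pow_const 2

/-- Circle version of the mean value inequality. -/
theorem mv_circle {g : ℂ → ℂ} {c : ℂ} {η r : ℝ} (hg : DifferentiableOn ℂ g (ball c η))
    (hr : 0 < r) (hrη : r < η) :
    ∫⁻ _ in Ioo (-π) π, ‖g c‖ₑ ^ 2 ≤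
      ∫⁻ θ in Ioo (-π) π, ‖g (c + r * (Real.cos θ + Real.sin θ * I))‖ₑ ^ 2 := by
  have h1 : DiffContOnCl ℂ (fun z => g z ^ 2) (ball c |r|) := by
    apply DifferentiableOn.diffContOnCl
    rw [abs_of_pos hr, closure_ball _ hr.ne']
    exact (hg.mono (closedBall_subset_ball hrη)).pow 2
  have h2 := h1.circleAverage
  rw [Real.circleAverage_eq_integral_add (-π),
    intervalIntegral.integral_comp_add_right (fun θ => g (circleMap c r θ) ^ 2)] at h2
  have h3 : (2 * π + -π) = π := by ring
  rw [zero_add, h3, intervalIntegral.integral_of_le (by linarith [Real.pi_pos]),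
    integral_Ioc_eq_integral_Ioo] at h2
  have h4 : (∫ θ in Ioo (-π) π, g (circleMap c r θ) ^ 2) = ((2 * π : ℝ) : ℂ) * g c ^ 2 := by
    rw [← h2, real_smul, ← mul_assoc, ← ofReal_mul, mul_inv_cancel₀ (by positivity)]
    simp
  have h5 := enorm_integral_le_lintegral_enorm (μ := volume.restrict (Ioo (-π) π))
    (fun θ => g (circleMap c r θ) ^ 2)
  rw [h4] at h5
  have h6 : ∀ θ : ℝ, circleMap c r θ = c + r * (Real.cos θ + Real.sin θ * I) := by
    intro θ
    simp [circleMap, exp_mul_I]
  simp_rw [h6, enorm_pow] at h5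
  refine le_trans (le_of_eq ?_) h5
  rw [setLIntegral_const, Real.volume_Ioo, enorm_mul, enorm_pow, mul_comm]
  congr 1
  rw [← ofReal_norm, norm_real, Real.norm_of_nonneg (by positivity)]
  congr 1
  ring

/-- Mean value inequality on a disc. -/
theorem mv_ball {g : ℂ → ℂ} {c : ℂ} {η : ℝ} (hg : DifferentiableOn ℂ g (ball c η)) :
    volume (ball c η) * ‖g c‖ₑ ^ 2 ≤ ∫⁻ z in ball c η, ‖g z‖ₑ ^ 2 := by
  have key : ∀ h : ℂ → ℂ, ContinuousOn h (ball c η) →
      ∫⁻ z in ball c η, ‖h z‖ₑ ^ 2 = ∫⁻ r in Ioi (0 : ℝ), ∫⁻ θ in Ioo (-π) π,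
        ENNReal.ofReal r * (ball c η).indicator (fun z => ‖h z‖ₑ ^ 2)
          (c + r * (Real.cos θ + Real.sin θ * I)) := by
    intro h hh
    have hm := measurable_indicator_sq measurableSet_ball hh
    rw [← lintegral_indicator measurableSet_ball, ← lintegral_add_left_eq_self _ c,
      ← Complex.lintegral_comp_polarCoord_symm, polarCoord_target, Measure.volume_eq_prod,
      setLIntegral_prod]
    · simp only [Complex.polarCoord_symm_apply, smul_eq_mul]
    · apply Measurable.aemeasurable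
      simp only [Complex.polarCoord_symm_apply, smul_eq_mul]
      refine (ENNReal.measurable_ofReal.comp measurable_fst).mul (hm.comp ?_)
      fun_prop
  rw [mul_comm, ← setLIntegral_const, key _ hg.continuousOn,
    key (fun _ => g c) continuousOn_const]
  refine setLIntegral_mono' measurableSet_Ioi fun r hr => ?_
  have hr : 0 < r := hr
  have hn : ∀ θ : ℝ, (c + r * (Real.cos θ + Real.sin θ * I) ∈ ball c η) ↔ r < η := by
    intro θ
    rw [mem_ball, dist_eq_norm, add_sub_cancel_left, norm_mul, ofReal_cos, ofReal_sin,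
      ← exp_mul_I, norm_exp_ofReal_mul_I, norm_real, Real.norm_of_nonneg hr.le, mul_one]
  by_cases hrη : r < η
  · simp_rw [indicator_of_mem ((hn _).mpr hrη)]
    rw [lintegral_const_mul' _ _ ENNReal.ofReal_ne_top,
      lintegral_const_mul' _ _ ENNReal.ofReal_ne_top]
    exact mul_le_mul_right (mv_circle hg hr hrη) _
  · simp_rw [indicator_of_notMem (mt (hn _).mp hrη)]
    exact le_rfl

/-- Removal of singularities along a locally finite set. -/
theorem exists_extend {g : ℂ → ℂ} {U T : Set ℂ} (hU : IsOpen U)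
    (hT : ∀ x ∈ U, ∀ᶠ z in 𝓝[≠] x, z ∉ T) (hg : DifferentiableOn ℂ g (U \ T))
    (ho : ∀ t ∈ U, t ∈ T → Tendsto (fun z => (z - t) * g z) (𝓝[≠] t) (𝓝 0)) :
    ∃ G : ℂ → ℂ, DifferentiableOn ℂ G U ∧ ∀ z ∉ T, G z = g z := by
  classical
  refine ⟨fun z => if z ∈ T then limUnder (𝓝[≠] z) g else g z, ?_, fun z hz => if_neg hz⟩
  intro x hx
  apply DifferentiableAt.differentiableWithinAt
  have h1 : U \ T ∈ 𝓝[≠] x :=
    inter_mem (mem_nhdsWithin_of_mem_nhds (hU.mem_nhds hx)) (hT x hx)
  by_cases hxT : x ∈ T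
  · have h2 : (fun z => g z - g x) =o[𝓝[≠] x] fun z => (z - x)⁻¹ := by
      rw [Asymptotics.isLittleO_iff_tendsto']
      · have h3 : Tendsto (fun z => (z - x) * g x) (𝓝[≠] x) (𝓝 0) := by
          have : Tendsto (fun z => (z - x) * g x) (𝓝 x) (𝓝 ((x - x) * g x)) :=
            Continuous.tendsto (by fun_prop) x
          simpa using this.mono_left nhdsWithin_le_nhds
        have h4 := (ho x hx hxT).sub h3
        rw [sub_zero] at h4
        refine h4.congr fun z => ?_
        rw [div_inv_eq_mul]; ring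
      · filter_upwards [self_mem_nhdsWithin] with z hz h
        exact absurd (inv_eq_zero.mp h) (sub_ne_zero.mpr hz)
    have h5 := differentiableOn_update_limUnder_insert_of_isLittleO h1 hg h2
    have h6 : insert x (U \ T) ∈ 𝓝 x := insert_mem_nhds_iff.2 h1
    refine (h5.differentiableAt h6).congr_of_eventuallyEq ?_
    filter_upwards [h6] with z hz
    rcases hz with rfl | hz
    · simp [hxT]
    · have : z ≠ x := by rintro rfl; exact hz.2 hxT
      simp [hz.2, this]
  · have h6 : U \ T ∈ 𝓝 x := by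
      have := insert_mem_nhds_iff.2 h1
      rwa [insert_eq_of_mem (show x ∈ U \ T from ⟨hx, hxT⟩)] at this
    refine (hg.differentiableAt h6).congr_of_eventuallyEq ?_
    filter_upwards [h6] with z hz
    simp [hz.2]

/-- Mean value inequality on a disc, off a locally finite set. -/
theorem mv_ball_diff {g : ℂ → ℂ} {c : ℂ} {η : ℝ} {T : Set ℂ}
    (hT : ∀ x, ∀ᶠ z in 𝓝[≠] x, z ∉ T) (hTc : T.Countable)
    (hg : DifferentiableOn ℂ g (ball c η \ T)) (hc : c ∉ T) :
    volume (ball c η) * ‖g c‖ₑ ^ 2 ≤ ∫⁻ z in ball c η \ T, ‖g z‖ₑ ^ 2 := by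
  by_cases hfin : ∫⁻ z in ball c η \ T, ‖g z‖ₑ ^ 2 = ∞
  · rw [hfin]; exact le_top
  have hae : (ball c η \ T : Set ℂ) =ᵐ[volume] (ball c η : Set ℂ) :=
    sdiff_ae_eq_self.mpr (measure_mono_null inter_subset_right (hTc.measure_zero _))
  obtain ⟨G, hG, hGg⟩ := exists_extend isOpen_ball (fun x _ => hT x) hg (by
    intro t ht htT
    -- the mass of small discs tends to zero
    have h1 : Tendsto (fun w : ℂ => ∫⁻ z in ball w (‖w - t‖ / 2), ‖g z‖ₑ ^ 2
        ∂(volume.restrict (ball c η \ T))) (𝓝[≠] t) (𝓝 0) := by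
      apply tendsto_setLIntegral_zero hfin
      have h2 : Tendsto (fun w : ℂ => (ENNReal.ofReal (‖w - t‖ / 2)) ^ 2 * (NNReal.pi : ℝ≥0∞))
          (𝓝[≠] t) (𝓝 0) := by
        have h3 : Tendsto (fun w : ℂ => ‖w - t‖ / 2) (𝓝[≠] t) (𝓝 0) := by
          have : Tendsto (fun w : ℂ => ‖w - t‖ / 2) (𝓝 t) (𝓝 (‖t - t‖ / 2)) :=
            Continuous.tendsto (by fun_prop) t
          simpa using this.mono_left nhdsWithin_le_nhds
        have h4 := ENNReal.tendsto_ofReal h3
        have h5 := ENNReal.Tendsto.mul_const (b := (NNReal.pi : ℝ≥0∞))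
          (ENNReal.Tendsto.pow (n := 2) h4) (Or.inr ENNReal.coe_ne_top)
        simpa using h5
      refine tendsto_of_tendsto_of_tendsto_of_le_of_le tendsto_const_nhds h2
        (fun _ => zero_le) (fun w => ?_)
      simp only [Function.comp]
      rw [← Complex.volume_ball w]
      exact Measure.restrict_le_self _
    obtain ⟨ρ, hρ, hsub⟩ : ∃ ρ > 0, ∀ z, z ∈ ball t ρ → z ≠ t → z ∈ ball c η \ T := by
      have h6 : ball c η \ T ∈ 𝓝[≠] t :=
        inter_mem (mem_nhdsWithin_of_mem_nhds (isOpen_ball.mem_nhds ht)) (hT t)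
      rw [mem_nhdsWithin_iff] at h6
      obtain ⟨ρ, hρ, h7⟩ := h6
      exact ⟨ρ, hρ, fun z hz hzt => h7 ⟨hz, hzt⟩⟩
    have h8 : ∀ᶠ w in 𝓝[≠] t, ENNReal.ofReal (‖(w - t) * g w‖ ^ 2 * (π / 4)) ≤
        ∫⁻ z in ball w (‖w - t‖ / 2), ‖g z‖ₑ ^ 2 ∂(volume.restrict (ball c η \ T)) := by
      filter_upwards [self_mem_nhdsWithin,
        mem_nhdsWithin_of_mem_nhds (ball_mem_nhds t (half_pos hρ))] with w hw hw2
      have hwt : 0 < ‖w - t‖ := norm_pos_iff.mpr (sub_ne_zero.mpr hw)
      have hs : ball w (‖w - t‖ / 2) ⊆ ball c η \ T := by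
        intro z hz
        rw [mem_ball, dist_eq_norm] at hz hw2
        apply hsub
        · rw [mem_ball, dist_eq_norm]
          calc ‖z - t‖ = ‖(z - w) + (w - t)‖ := by ring_nf
            _ ≤ ‖z - w‖ + ‖w - t‖ := norm_add_le _ _
            _ < ρ := by linarith
        · rintro rfl
          rw [norm_sub_rev] at hz
          linarith
      rw [Measure.restrict_restrict measurableSet_ball, inter_eq_left.mpr hs]
      refine le_trans (le_of_eq ?_) (mv_ball (hg.mono hs))
      rw [Complex.volume_ball, ← ofReal_norm, ← ENNReal.ofReal_pow (by positivity),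
        ← ENNReal.ofReal_pow (by positivity), ← ENNReal.ofReal_coe_nnreal, NNReal.coe_real_pi,
        ← ENNReal.ofReal_mul (by positivity), ← ENNReal.ofReal_mul (by positivity), norm_mul]
      congr 1
      ring
    have h9 : Tendsto (fun w => ENNReal.ofReal (‖(w - t) * g w‖ ^ 2 * (π / 4))) (𝓝[≠] t) (𝓝 0) :=
      tendsto_of_tendsto_of_tendsto_of_le_of_le' tendsto_const_nhds h1
        (Eventually.of_forall fun _ => zero_le) h8
    have h10 : Tendsto (fun w => ‖(w - t) * g w‖ ^ 2 * (π / 4)) (𝓝[≠] t) (𝓝 0) := by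
      have := (ENNReal.tendsto_toReal ENNReal.zero_ne_top).comp h9
      simp only [ENNReal.toReal_zero] at this
      refine this.congr fun w => ?_
      simp only [Function.comp]
      rw [ENNReal.toReal_ofReal (by positivity)]
    have h11 : Tendsto (fun w => ‖(w - t) * g w‖ ^ 2) (𝓝[≠] t) (𝓝 0) := by
      have := h10.mul_const (4 / π)
      rw [zero_mul] at this
      refine this.congr fun w => ?_
      field_simp
    rw [tendsto_zero_iff_norm_tendsto_zero]
    have := h11.sqrt
    simp only [Real.sqrt_sq (norm_nonneg _), Real.sqrt_zero] at this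
    exact this)
  have := mv_ball hG
  rw [hGg c hc, ← setLIntegral_congr hae] at this
  refine this.trans (le_of_eq ?_)
  refine setLIntegral_congr_fun (measurableSet_ball.diff hTc.measurableSet) fun z hz => ?_
  simp only [hGg z hz.2]

/-- Liouville's theorem off a locally finite set. -/
theorem liouville_diff {g : ℂ → ℂ} {T : Set ℂ} (hT : ∀ x, ∀ᶠ z in 𝓝[≠] x, z ∉ T)
    (hg : DifferentiableOn ℂ g Tᶜ) {M : ℝ} (hM : ∀ z ∉ T, ‖g z‖ ≤ M) :
    ∃ a : ℂ, ∀ z ∉ T, g z = a := by
  obtain ⟨G, hG, hGg⟩ := exists_extend (U := univ) isOpen_univ (fun x _ => hT x)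
    (by rwa [← compl_eq_univ_sdiff]) (by
      intro t _ _
      rw [tendsto_zero_iff_norm_tendsto_zero]
      have h3 : Tendsto (fun w : ℂ => ‖w - t‖ * M) (𝓝[≠] t) (𝓝 0) := by
        have : Tendsto (fun w : ℂ => ‖w - t‖ * M) (𝓝 t) (𝓝 (‖t - t‖ * M)) :=
          Continuous.tendsto (by fun_prop) t
        simpa using this.mono_left nhdsWithin_le_nhds
      refine squeeze_zero' (Eventually.of_forall fun _ => norm_nonneg _) ?_ h3
      filter_upwards [hT t] with z hz
      rw [norm_mul]
      gcongr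
      exact hM z hz)
  have hG' : Differentiable ℂ G := differentiableOn_univ.mp hG
  have hb : ∀ z, ‖G z‖ ≤ M := by
    intro z
    refine le_of_tendsto ((hG'.continuous.tendsto z).norm.mono_left
      (nhdsWithin_le_nhds (s := {z}ᶜ))) ?_
    filter_upwards [hT z] with w hw
    rw [hGg w hw]
    exact hM w hw
  obtain ⟨a, ha⟩ := hG'.exists_const_forall_eq_of_bounded
    (isBounded_iff_forall_norm_le.mpr ⟨M, by rintro _ ⟨z, rfl⟩; exact hb z⟩)
  exact ⟨a, fun z hz => by rw [← hGg z hz, ha]⟩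

/-- A locally finite subset of the plane is countable. -/
theorem countable_of_locfin {T : Set ℂ} (hT : ∀ x, ∀ᶠ z in 𝓝[≠] x, z ∉ T) : T.Countable := by
  have : DiscreteTopology T := by
    rw [discreteTopology_subtype_iff]
    intro x _
    rw [inf_principal_eq_bot]
    exact hT x
  exact countable_of_Lindelof_of_discrete (X := T)

/-- A locally finite subset of the plane meets a compact set in a finite set. -/
theorem finite_inter_of_locfin {T K : Set ℂ} (hT : ∀ x, ∀ᶠ z in 𝓝[≠] x, z ∉ T)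
    (hK : IsCompact K) : (T ∩ K).Finite := by
  by_contra h
  obtain ⟨x, -, hx⟩ := Set.Infinite.exists_accPt_of_subset_isCompact h hK inter_subset_right
  rw [accPt_iff_frequently_nhdsNE] at hx
  exact hx ((hT x).mono fun z hz h => hz h.1)

theorem isClosed_of_locfin {T : Set ℂ} (hT : ∀ x, ∀ᶠ z in 𝓝[≠] x, z ∉ T) : IsClosed T := by
  rw [← isOpen_compl_iff, isOpen_iff_mem_nhds]
  intro x hx
  have := insert_mem_nhds_iff.2 (show Tᶜ ∈ 𝓝[≠] x from hT x)
  rwa [insert_eq_of_mem hx] at this

end Pool.Agent.P.MP_97162c_an
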