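import Pool.Agent.P.MP_97162c_an.Cover

set_option autoImplicit false
set_option linter.dupNamespace false

open Set Filter Topology Metric Complex MeasureTheory
open scoped Real ENNReal

namespace Pool.Agent.P.MP_97162c_an

/-- The generator of the Bergman space. -/
noncomputable def f0 (p : ℂ × ℂ) : ℂ := (cub p.1 - p.2 ^ 2)⁻¹

theorem den_ne {p : ℂ × ℂ} (hp : p ∈ Om) : cub p.1 - p.2 ^ 2 ≠ 0 := by
  obtain ⟨q, hq, -, rfl⟩ := exists_Phi hp
  simp only [Phi]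
  rw [cub_sub hq]
  exact mul_ne_zero (mul_ne_zero two_ne_zero (snd_ne hq)) (J_ne hq)

theorem f0_ne {p : ℂ × ℂ} (hp : p ∈ Om) : f0 p ≠ 0 := inv_ne_zero (den_ne hp)

theorem den_diff : Differentiable ℂ fun p : ℂ × ℂ => cub p.1 - p.2 ^ 2 := by
  unfold cub; fun_prop

theorem f0_diff : DifferentiableOn ℂ f0 Om := fun p hp =>
  ((den_diff p).inv (den_ne hp)).differentiableWithinAt

theorem f0_sq_lt_top : ∫⁻ p in Om, ‖f0 p‖ₑ ^ 2 < ∞ := by
  obtain ⟨t, -, ht, hcov⟩ := finite_cover_balls_of_compact (isCompact_closedBall (0 : ℂ) 2)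
    (e := 1 / 4) (by norm_num)
  have h1 : Om ⊆ ⋃ z : t, Phi '' (D ∩ ball (z : ℂ) (1 / 4) ×ˢ univ) := by
    intro p hp
    obtain ⟨q, hq, h2, rfl⟩ := exists_Phi hp
    obtain ⟨z, hz, h3⟩ := mem_iUnion₂.mp (hcov (mem_closedBall_zero_iff.mpr h2))
    exact mem_iUnion.mpr ⟨⟨z, hz⟩, q, ⟨hq, h3, trivial⟩, rfl⟩
  have := ht.fintype
  refine (lintegral_mono_set h1).trans_lt ((lintegral_iUnion_le _ _).trans_lt ?_)
  rw [tsum_fintype, ENNReal.sum_lt_top]
  intro z _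
  refine (push_le z _).trans_lt (ENNReal.mul_lt_top (by norm_num) ?_)
  have h2 : ∫⁻ q in D ∩ ball (z : ℂ) (1 / 4) ×ˢ univ, ‖J q‖ₑ ^ 2 * ‖f0 (Phi q)‖ₑ ^ 2 ≤
      ∫⁻ _ in D ∩ ball (z : ℂ) (1 / 4) ×ˢ univ, 1 := by
    refine setLIntegral_mono' (D_open.measurableSet.inter
      (measurableSet_ball.prod MeasurableSet.univ)) fun q hq => ?_
    have h3 : J q * f0 (Phi q) = (2 * q.2)⁻¹ := by
      have := J_ne hq.1
      have := snd_ne hq.1
      simp only [f0, Phi]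
      rw [cub_sub hq.1]
      field_simp
    rw [← mul_pow, ← enorm_mul, h3, ← ofReal_norm, ← ENNReal.ofReal_pow (norm_nonneg _),
      ENNReal.ofReal_le_one]
    have h4 : ‖(2 * q.2)⁻¹‖ ≤ 1 := by
      rw [norm_inv, norm_mul, Complex.norm_two]
      apply inv_le_one_of_one_le₀
      linarith [hq.1.2.1]
    nlinarith [norm_nonneg (2 * q.2)⁻¹]
  refine h2.trans_lt ?_
  rw [setLIntegral_one]
  have h5 : D ∩ ball (z : ℂ) (1 / 4) ×ˢ univ ⊆ ball (z : ℂ) (1 / 4) ×ˢ ball 0 2 :=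
    fun q hq => ⟨hq.2.1, mem_ball_zero_iff.mpr hq.1.2.2.1⟩
  refine (measure_mono h5).trans_lt ?_
  rw [Measure.volume_eq_prod, Measure.prod_prod]
  exact ENNReal.mul_lt_top measure_ball_lt_top measure_ball_lt_top

/-- The pull-back of `f`, divided by the pull-back of `f0`. -/
noncomputable def G (f : ℂ × ℂ → ℂ) (q : ℂ × ℂ) : ℂ :=
  f (Phi q) * (cub (Phi q).1 - (Phi q).2 ^ 2)

theorem G_diffAt {f : ℂ × ℂ → ℂ} (hf : DifferentiableOn ℂ f Om) {q : ℂ × ℂ} (hq : q ∈ D) :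
    DifferentiableAt ℂ (G f) q :=
  DifferentiableAt.comp (g := fun p => f p * (cub p.1 - p.2 ^ 2)) q
    ((hf.differentiableAt (Om_open.mem_nhds (Phi_mem hq))).mul (den_diff _))
    (Phi_analytic hq).differentiableAt

theorem G_add_I (f : ℂ × ℂ → ℂ) (z v : ℂ) : G f (z + I, chi * v) = G f (z, v) := by
  have : Phi (z + I, chi * v) = Phi (z, v) := by
    simp only [Phi, W, P_add I_mem_lat, Y_add I_mem_lat, s_add_I]
    rw [← mul_sub, ← mul_add, mul_left_comm, mul_div_mul_left _ _ chi_ne_zero]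
  simp only [G, this]

theorem G_sq_le (f : ℂ × ℂ → ℂ) (z₀ : ℂ) :
    ∫⁻ q in D ∩ ball z₀ (1 / 4) ×ˢ univ, ‖G f q‖ₑ ^ 2 ≤ 16 * (4 * ∫⁻ p in Om, ‖f p‖ₑ ^ 2) := by
  refine le_trans ?_ (mul_le_mul_right (pull_le z₀ _) 16)
  rw [← lintegral_const_mul' _ _ (by norm_num)]
  refine setLIntegral_mono' (D_open.measurableSet.inter
    (measurableSet_ball.prod MeasurableSet.univ)) fun q hq => ?_
  have h3 : G f q = (2 * q.2) * (J q * f (Phi q)) := by
    simp only [G, Phi]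
    rw [cub_sub hq.1]; ring
  rw [h3, enorm_mul, mul_pow, enorm_mul (J q), mul_pow (‖J q‖ₑ)]
  gcongr
  have h4 : ‖2 * q.2‖ ^ 2 ≤ 16 := by
    rw [norm_mul, Complex.norm_two]
    nlinarith [hq.1.2.2.1, norm_nonneg q.2]
  rw [← ofReal_norm, ← ENNReal.ofReal_pow (norm_nonneg _)]
  exact (ENNReal.ofReal_le_ofReal h4).trans (by simp)

theorem mem_D {z v : ℂ} (h1 : 1 / 2 < ‖v‖) (h2 : ‖v‖ < 2) (hz : z ∉ T v) : (z, v) ∈ D := by
  rw [T, mem_ofPred_eq, not_or] at hz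
  exact ⟨hz.1, h1, h2, hz.2⟩

theorem G_diff_fst {f : ℂ × ℂ → ℂ} (hf : DifferentiableOn ℂ f Om) {v : ℂ} (h1 : 1 / 2 < ‖v‖)
    (h2 : ‖v‖ < 2) : DifferentiableOn ℂ (fun z => G f (z, v)) (T v)ᶜ := fun z hz =>
  (DifferentiableAt.comp (g := G f) (f := fun z => (z, v)) z (G_diffAt hf (mem_D h1 h2 hz))
    (by fun_prop)).differentiableWithinAt

theorem G_bound {f : ℂ × ℂ → ℂ} (hf : DifferentiableOn ℂ f Om) {v : ℂ} {η : ℝ} (hη : 0 < η)
    (hv : ∀ w ∈ ball v η, 1 / 2 < ‖w‖ ∧ ‖w‖ < 2) {z : ℂ} (hz : z ∉ T v) :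
    volume (ball v η) * (volume (ball z (1 / 4)) * ‖G f (z, v)‖ₑ ^ 2) ≤
      16 * (4 * ∫⁻ p in Om, ‖f p‖ₑ ^ 2) := by
  obtain ⟨h1, h2⟩ := hv v (mem_ball_self hη)
  have hm : Measurable (D.indicator fun q => ‖G f q‖ₑ ^ 2) :=
    measurable_indicator_sq D_open.measurableSet
      fun q hq => (G_diffAt hf hq).continuousAt.continuousWithinAt
  have hTc := countable_of_locfin (T_locfin v)
  calc volume (ball v η) * (volume (ball z (1 / 4)) * ‖G f (z, v)‖ₑ ^ 2)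
      ≤ volume (ball v η) * ∫⁻ z' in ball z (1 / 4) \ T v, ‖G f (z', v)‖ₑ ^ 2 :=
        mul_le_mul_right (mv_ball_diff (g := fun z => G f (z, v)) (T_locfin v) hTc
          ((G_diff_fst hf h1 h2).mono fun w hw => hw.2) hz) _
    _ = ∫⁻ z' in ball z (1 / 4) \ T v, volume (ball v η) * ‖G f (z', v)‖ₑ ^ 2 :=
        (lintegral_const_mul' _ _ measure_ball_lt_top.ne).symm
    _ ≤ ∫⁻ z' in ball z (1 / 4) \ T v, ∫⁻ v', D.indicator (fun q => ‖G f q‖ₑ ^ 2) (z', v') := by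
        refine setLIntegral_mono' (measurableSet_ball.diff hTc.measurableSet) fun z' hz' => ?_
        have h3 := mem_D h1 h2 hz'.2
        have h4 : ∀ w ∈ ball v η \ {-s z'}, (z', w) ∈ D := fun w hw =>
          ⟨h3.1, (hv w hw.1).1, (hv w hw.1).2, fun h => hw.2 (eq_neg_of_add_eq_zero_left h)⟩
        refine (mv_ball_diff (g := fun w => G f (z', w)) (T := {-s z'}) (fun x => ?_)
          (countable_singleton _) (fun w hw => ?_) (fun h => h3.2.2.2 ?_)).trans ?_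
        · by_cases hx : x = -s z'
          · rw [← hx]; exact self_mem_nhdsWithin
          · exact mem_nhdsWithin_of_mem_nhds (isOpen_compl_singleton.mem_nhds hx)
        · exact (DifferentiableAt.comp (g := G f) (f := fun w => (z', w)) w
            (G_diffAt hf (h4 w hw)) (by fun_prop)).differentiableWithinAt
        · rw [mem_singleton_iff] at h
          simp [h]
        · refine le_trans (setLIntegral_mono' (measurableSet_ball.diff (measurableSet_singleton _))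
            fun w hw => ?_) (setLIntegral_le_lintegral (ball v η \ {-s z'}) _)
          rw [indicator_of_mem (h4 w hw)]
    _ ≤ ∫⁻ z' in ball z (1 / 4), ∫⁻ v' in univ, D.indicator (fun q => ‖G f q‖ₑ ^ 2) (z', v') := by
        simp only [Measure.restrict_univ]
        exact lintegral_mono_set sdiff_subset
    _ = ∫⁻ q in D ∩ ball z (1 / 4) ×ˢ univ, ‖G f q‖ₑ ^ 2 := by
        rw [← setLIntegral_prod _ hm.aemeasurable, ← Measure.volume_eq_prod,
          lintegral_indicator D_open.measurableSet, Measure.restrict_restrict D_open.measurableSet]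
    _ ≤ _ := G_sq_le f z

theorem G_const_fst {f : ℂ × ℂ → ℂ} (hf : DifferentiableOn ℂ f Om)
    (hfin : ∫⁻ p in Om, ‖f p‖ₑ ^ 2 ≠ ∞) {v : ℂ} (h1 : 1 / 2 < ‖v‖) (h2 : ‖v‖ < 2) :
    ∃ a : ℂ, ∀ z ∉ T v, G f (z, v) = a := by
  obtain ⟨η, hη, hv⟩ : ∃ η > 0, ∀ w ∈ ball v η, 1 / 2 < ‖w‖ ∧ ‖w‖ < 2 := by
    have : ∀ᶠ w in 𝓝 v, 1 / 2 < ‖w‖ ∧ ‖w‖ < 2 :=
      (continuousAt_const.eventually_lt continuous_norm.continuousAt h1).and
        (continuous_norm.continuousAt.eventually_lt continuousAt_const h2)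
    exact Metric.eventually_nhds_iff_ball.mp this
  set C : ℝ≥0∞ := 16 * (4 * ∫⁻ p in Om, ‖f p‖ₑ ^ 2) with hC
  have hC' : C ≠ ∞ := ENNReal.mul_ne_top (by norm_num) (ENNReal.mul_ne_top (by norm_num) hfin)
  set a : ℝ≥0∞ := volume (ball v η) * volume (ball (0 : ℂ) (1 / 4)) with ha
  have ha0 : a ≠ 0 := mul_ne_zero (measure_ball_pos _ _ hη).ne'
    (measure_ball_pos _ _ (by norm_num)).ne'
  have ha1 : a ≠ ∞ := ENNReal.mul_ne_top measure_ball_lt_top.ne measure_ball_lt_top.ne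
  apply liouville_diff (T_locfin v) (G_diff_fst hf h1 h2) (M := (C / a).toReal + 1)
  intro z hz
  have h3 := G_bound hf hη hv hz
  rw [Measure.addHaar_ball_center volume z, ← mul_assoc, ← ha, ← hC, mul_comm,
    ← ENNReal.le_div_iff_mul_le (Or.inl ha0) (Or.inl ha1), ← ofReal_norm,
    ← ENNReal.ofReal_pow (norm_nonneg _),
    ENNReal.ofReal_le_iff_le_toReal (ENNReal.div_ne_top hC' ha0)] at h3
  nlinarith [norm_nonneg (G f (z, v))]

theorem annulus_preconnected : IsPreconnected {v : ℂ | 1 / 2 < ‖v‖ ∧ ‖v‖ < 2} := by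
  have h1 : {v : ℂ | 1 / 2 < ‖v‖ ∧ ‖v‖ < 2} =
      (fun p : ℝ × ℝ => (p.1 : ℂ) * cexp (p.2 * I)) '' (Ioo (1 / 2) 2 ×ˢ univ) := by
    ext v
    constructor
    · intro hv
      exact ⟨(‖v‖, arg v), ⟨hv, trivial⟩, norm_mul_exp_arg_mul_I v⟩
    · rintro ⟨⟨r, θ⟩, ⟨hr, -⟩, rfl⟩
      simp only [mem_ofPred_eq, norm_mul, norm_exp_ofReal_mul_I, norm_real, mul_one]
      rw [Real.norm_of_nonneg (by linarith [hr.1])]
      exact hr
  rw [h1]
  exact (isPreconnected_Ioo.prod isPreconnected_univ).image _ (by fun_prop)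

theorem G_const {f : ℂ × ℂ → ℂ} (hf : DifferentiableOn ℂ f Om)
    (hfin : ∫⁻ p in Om, ‖f p‖ₑ ^ 2 ≠ ∞) : ∃ a : ℂ, ∀ q ∈ D, G f q = a := by
  set U : Set ℂ := {v : ℂ | 1 / 2 < ‖v‖ ∧ ‖v‖ < 2} with hU
  have hUo : IsOpen U :=
    (isOpen_lt continuous_const continuous_norm).inter (isOpen_lt continuous_norm continuous_const)
  have h1 : ∀ v : ℂ, ∃ a : ℂ, v ∈ U → ∀ z ∉ T v, G f (z, v) = a := by
    intro v
    by_cases hv : v ∈ U
    · obtain ⟨a, ha⟩ := G_const_fst hf hfin hv.1 hv.2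
      exact ⟨a, fun _ => ha⟩
    · exact ⟨0, fun h => absurd h hv⟩
  choose c hc using h1
  have hT : ∀ q ∈ D, q.1 ∉ T q.2 := by
    rintro q hq (h | h)
    exacts [hq.1 h, hq.2.2.2 h]
  have hcd : DifferentiableOn ℂ c U := by
    intro v hv
    obtain ⟨z, hz⟩ := (T_locfin v 0).exists
    have hzv := mem_D hv.1 hv.2 hz
    have h2 : DifferentiableAt ℂ (fun w => G f (z, w)) v :=
      DifferentiableAt.comp (g := G f) (f := fun w => (z, w)) v (G_diffAt hf hzv) (by fun_prop)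
    refine (h2.congr_of_eventuallyEq ?_).differentiableWithinAt
    have h3 : ∀ᶠ w in 𝓝 v, (z, w) ∈ D :=
      (Continuous.tendsto (f := fun w : ℂ => (z, w)) (by fun_prop) v).eventually
        (D_open.mem_nhds hzv)
    filter_upwards [h3] with w hw
    have h6 : w ∈ U := ⟨hw.2.1, hw.2.2.1⟩
    have h7 : z ∉ T w := hT (z, w) hw
    exact (hc w h6 z h7).symm
  have hchi : ∀ v ∈ U, chi * v ∈ U := fun v hv => by
    simpa only [hU, mem_ofPred_eq, norm_mul, norm_chi, one_mul] using hv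
  have hinv : ∀ v ∈ U, c (chi * v) = c v := by
    intro v hv
    obtain ⟨z, hz⟩ := (T_locfin v 0).exists
    rw [← hc v hv z hz, ← G_add_I, hc _ (hchi v hv)]
    rintro (h | h)
    · exact hz (Or.inl (add_I_mem_S.mp h))
    · rw [s_add_I, ← mul_add] at h
      exact hz (Or.inr ((mul_eq_zero.mp h).resolve_left chi_ne_zero))
  have hsph : sphere (0 : ℂ) 1 ⊆ U := by
    intro v hv
    rw [mem_sphere_zero_iff_norm] at hv
    simp only [hU, mem_ofPred_eq, hv]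
    norm_num
  have hpow : ∀ n : ℕ, chi ^ n ∈ sphere (0 : ℂ) 1 := fun n => by
    rw [mem_sphere_zero_iff_norm, norm_pow, norm_chi, one_pow]
  have hcn : ∀ n : ℕ, c (chi ^ n) = c 1 := by
    intro n
    induction n with
    | zero => rw [pow_zero]
    | succ n ih => rw [pow_succ', hinv _ (hsph (hpow n)), ih]
  obtain ⟨x, hx, hacc⟩ := (infinite_range_of_injective chi_pow_inj).exists_accPt_of_subset_isCompact
    (isCompact_sphere (0 : ℂ) 1) (range_subset_iff.mpr hpow)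
  rw [accPt_iff_frequently_nhdsNE] at hacc
  have h4 : EqOn c (fun _ => c 1) U :=
    (hcd.analyticOnNhd hUo).eqOn_of_preconnected_of_frequently_eq analyticOnNhd_const
      annulus_preconnected (hsph hx) (hacc.mono (by rintro _ ⟨n, rfl⟩; exact hcn n))
  refine ⟨c 1, fun q hq => ?_⟩
  have h5 : q.2 ∈ U := ⟨hq.2.1, hq.2.2.1⟩
  exact (hc q.2 h5 q.1 (hT q hq)).trans (h4 h5)

/-- Every square integrable holomorphic function on the domain is a multiple of `f0`. -/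
theorem eq_mul_f0 {f : ℂ × ℂ → ℂ} (hf : DifferentiableOn ℂ f Om)
    (hfin : ∫⁻ p in Om, ‖f p‖ₑ ^ 2 ≠ ∞) : ∃ a : ℂ, ∀ p ∈ Om, f p = a * f0 p := by
  obtain ⟨a, ha⟩ := G_const hf hfin
  refine ⟨a, fun p hp => ?_⟩
  have h1 := den_ne hp
  obtain ⟨q, hq, -, rfl⟩ := exists_Phi hp
  rw [← ha q hq, G, f0, mul_inv_cancel_right₀ h1]

theorem Om_preconnected : IsPreconnected Om := by
  classical
  rintro u v hu hv huv ⟨a, ha, hau⟩ ⟨b, hb, hbv⟩
  by_contra hne
  have hdisj : ∀ p ∈ Om, p ∈ u → p ∉ v := fun p hp h1 h2 => hne ⟨p, hp, h1, h2⟩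
  have hd : DifferentiableOn ℂ (u.indicator f0) Om := by
    intro p hp
    apply DifferentiableAt.differentiableWithinAt
    rcases huv hp with h | h
    · refine (f0_diff.differentiableAt (Om_open.mem_nhds hp)).congr_of_eventuallyEq ?_
      filter_upwards [hu.mem_nhds h] with q hq using indicator_of_mem hq _
    · refine (differentiableAt_const (0 : ℂ)).congr_of_eventuallyEq ?_
      filter_upwards [hv.mem_nhds h, Om_open.mem_nhds hp] with q hq hq'
      exact indicator_of_notMem (fun h => hdisj q hq' h hq) _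
  have hfin : ∫⁻ p in Om, ‖u.indicator f0 p‖ₑ ^ 2 ≠ ∞ := by
    refine ne_top_of_le_ne_top f0_sq_lt_top.ne (lintegral_mono fun p => ?_)
    by_cases h : p ∈ u <;> simp [h]
  obtain ⟨c, hc⟩ := eq_mul_f0 hd hfin
  have h1 := hc a ha
  have h2 := hc b hb
  rw [indicator_of_mem hau] at h1
  rw [indicator_of_notMem (fun h => hdisj b hb h hbv)] at h2
  have h3 : c = 0 := (mul_eq_zero.mp h2.symm).resolve_right (f0_ne hb)
  rw [h3, zero_mul] at h1
  exact f0_ne ha h1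

end Pool.Agent.P.MP_97162c_an
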