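import Pool.Agent.P.MP_97162c_an.Domain

set_option autoImplicit false
set_option linter.dupNamespace false

open Set Filter Topology Metric Complex MeasureTheory
open scoped Real ENNReal

namespace Pool.Agent.P.MP_97162c_an

noncomputable def W (z v : ℂ) : ℂ := Y z * (v - s z) / (v + s z)

/-- The uniformising map. -/
noncomputable def Phi (q : ℂ × ℂ) : ℂ × ℂ := (P q.1, W q.1 q.2)

/-- Its domain. -/
def D : Set (ℂ × ℂ) := {q | q.1 ∉ S ∧ 1 / 2 < ‖q.2‖ ∧ ‖q.2‖ < 2 ∧ q.2 + s q.1 ≠ 0}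

/-- Its complex Jacobian. -/
noncomputable def J (q : ℂ × ℂ) : ℂ := Y q.1 * (Y q.1 * (2 * s q.1) / (q.2 + s q.1) ^ 2)

theorem V_W {z v : ℂ} (hz : z ∉ S) (hv : v + s z ≠ 0) : V z (W z v) = v := by
  have h1 := Y_ne hz
  have h2 := s_ne hz
  have h4 : Y z - W z v = 2 * s z * Y z / (v + s z) := by
    rw [W]; field_simp; ring
  rw [V, h4, W]
  field_simp
  ring

theorem W_V {z w : ℂ} (hz : z ∉ S) (hw : Y z - w ≠ 0) :
    V z w + s z ≠ 0 ∧ W z (V z w) = w := by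
  have h1 := Y_ne hz
  have h2 := s_ne hz
  have h4 : V z w + s z = 2 * s z * Y z / (Y z - w) := by
    rw [V]; field_simp; ring
  refine ⟨by rw [h4]; exact div_ne_zero (mul_ne_zero (mul_ne_zero two_ne_zero h2) h1) hw, ?_⟩
  rw [W, h4, V]
  field_simp
  ring

theorem Phi_mem {q : ℂ × ℂ} (hq : q ∈ D) : Phi q ∈ Om := by
  obtain ⟨h1, h2, h3, h4⟩ := hq
  exact ⟨q.1, h1, rfl, by simpa only [Phi, V_W h1 h4] using h2,
    by simpa only [Phi, V_W h1 h4] using h3⟩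

theorem exists_Phi {p : ℂ × ℂ} (hp : p ∈ Om) : ∃ q ∈ D, ‖q.1‖ ≤ 2 ∧ Phi q = p := by
  obtain ⟨z, h0, h1, h2, h3, h4⟩ := exists_rep hp
  obtain ⟨h5, h6⟩ := W_V h1 (sub_ne_of_V h3)
  exact ⟨(z, V z p.2), ⟨h1, h3, h4, h5⟩, h0, by simp only [Phi, h2, h6]⟩

theorem cub_sub {q : ℂ × ℂ} (hq : q ∈ D) : cub (P q.1) - W q.1 q.2 ^ 2 = 2 * q.2 * J q := by
  obtain ⟨h1, -, -, h4⟩ := hq
  rw [← Y_sq (not_lat h1), W, J]
  field_simp
  ring

theorem J_ne {q : ℂ × ℂ} (hq : q ∈ D) : J q ≠ 0 := by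
  obtain ⟨h1, -, -, h4⟩ := hq
  have h2 := Y_ne h1
  have h3 := s_ne h1
  exact mul_ne_zero h2 (div_ne_zero (mul_ne_zero h2 (mul_ne_zero two_ne_zero h3))
    (pow_ne_zero 2 h4))

theorem snd_ne {q : ℂ × ℂ} (hq : q ∈ D) : q.2 ≠ 0 := by
  intro h
  have := hq.2.1
  rw [h, norm_zero] at this
  linarith

theorem s_fst_analytic {q : ℂ × ℂ} (hq : q.1 ∉ S) : AnalyticAt ℂ (fun q : ℂ × ℂ => s q.1) q :=
  AnalyticAt.comp (g := s) (f := Prod.fst) (s_analytic hq) analyticAt_fst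

theorem D_open : IsOpen D := by
  rw [isOpen_iff_mem_nhds]
  rintro q ⟨h1, h2, h3, h4⟩
  have c1 : ∀ᶠ r : ℂ × ℂ in 𝓝 q, r.1 ∉ S :=
    (continuous_fst.tendsto q).eventually (S_closed.isOpen_compl.mem_nhds h1)
  have c2 : ∀ᶠ r : ℂ × ℂ in 𝓝 q, 1 / 2 < ‖r.2‖ :=
    continuousAt_const.eventually_lt continuousAt_snd.norm h2
  have c3 : ∀ᶠ r : ℂ × ℂ in 𝓝 q, ‖r.2‖ < 2 :=
    continuousAt_snd.norm.eventually_lt continuousAt_const h3
  have c4 : ∀ᶠ r : ℂ × ℂ in 𝓝 q, r.2 + s r.1 ≠ 0 :=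
    (continuousAt_snd.add (s_fst_analytic h1).continuousAt).eventually_ne h4
  filter_upwards [c1, c2, c3, c4] with r a b c d using ⟨a, b, c, d⟩

theorem P_fst_analytic {q : ℂ × ℂ} (hq : q.1 ∉ S) : AnalyticAt ℂ (fun q : ℂ × ℂ => P q.1) q :=
  AnalyticAt.comp (g := P) (f := Prod.fst) (P_analytic (not_lat hq)) analyticAt_fst

theorem W_analytic {q : ℂ × ℂ} (hq : q ∈ D) : AnalyticAt ℂ (fun q : ℂ × ℂ => W q.1 q.2) q := by
  obtain ⟨h1, -, -, h4⟩ := hq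
  have a1 : AnalyticAt ℂ (fun q : ℂ × ℂ => Y q.1) q :=
    AnalyticAt.comp (g := Y) (f := Prod.fst) (Y_analytic (not_lat h1)) analyticAt_fst
  exact (a1.mul (analyticAt_snd.sub (s_fst_analytic h1))).div
    (analyticAt_snd.add (s_fst_analytic h1)) h4

theorem Phi_analytic {q : ℂ × ℂ} (hq : q ∈ D) : AnalyticAt ℂ Phi q :=
  (P_fst_analytic hq.1).prod (W_analytic hq)

theorem det_two (M : ℂ × ℂ →L[ℂ] ℂ × ℂ) :
    M.det = (M (1, 0)).1 * (M (0, 1)).2 - (M (0, 1)).1 * (M (1, 0)).2 := by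
  rw [ContinuousLinearMap.det, ← LinearMap.det_toMatrix (Module.Basis.finTwoProd ℂ),
    Matrix.det_fin_two]
  simp [LinearMap.toMatrix_apply, Module.Basis.coe_finTwoProd_repr]

theorem det_Phi {q : ℂ × ℂ} (hq : q ∈ D) : (fderiv ℂ Phi q).det = J q := by
  obtain ⟨z, v⟩ := q
  have hd := (Phi_analytic hq).differentiableAt.hasFDerivAt
  obtain ⟨h1, -, -, h4⟩ := hq
  simp only at h1 h4
  have a1 : HasDerivAt (fun t => Phi (z, t)) (fderiv ℂ Phi (z, v) (0, 1)) v :=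
    hd.comp_hasDerivAt v ((hasDerivAt_const v z).prodMk (hasDerivAt_id v))
  have a2 : HasDerivAt (fun t => Phi (t, v)) (fderiv ℂ Phi (z, v) (1, 0)) z :=
    HasFDerivAt.comp_hasDerivAt (l := Phi) (f := fun t => (t, v)) z hd
      ((hasDerivAt_id z).prodMk (hasDerivAt_const z v))
  have b1 : HasDerivAt (fun t => W z t) (Y z * (2 * s z) / (v + s z) ^ 2) v := by
    have := (((hasDerivAt_id v).sub_const (s z)).const_mul (Y z)).div
      ((hasDerivAt_id v).add_const (s z)) h4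
    refine HasDerivAt.congr_deriv this ?_
    simp only [id]
    ring
  have c1 := a1.unique ((hasDerivAt_const v (P z)).prodMk b1)
  have c2 : (fderiv ℂ Phi (z, v) (1, 0)).1 = Y z :=
    (HasFDerivAt.comp_hasDerivAt (l := Prod.fst) z (hasFDerivAt_fst (𝕜 := ℂ)) a2).unique
      (P_hasDerivAt (not_lat h1))
  rw [det_two, c1, c2, J]
  simp

/-- Change of variables. -/
theorem change_var {Q : Set (ℂ × ℂ)} (hQ : MeasurableSet Q) (hQD : Q ⊆ D) (hi : InjOn Phi Q)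
    (g : ℂ × ℂ → ℝ≥0∞) :
    ∫⁻ p in Phi '' Q, g p = ∫⁻ q in Q, ‖J q‖ₑ ^ 2 * g (Phi q) := by
  have : (volume : Measure (ℂ × ℂ)).IsAddHaarMeasure := Measure.prod.instIsAddHaarMeasure _ _
  rw [lintegral_image_eq_lintegral_abs_det_fderiv_mul volume hQ
    (f' := fun q => (fderiv ℂ Phi q).restrictScalars ℝ)
    (fun q hq => ((Phi_analytic (hQD hq)).differentiableAt.hasFDerivAt.restrictScalars
      ℝ).hasFDerivWithinAt) hi]
  refine setLIntegral_congr_fun hQ fun q hq => ?_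
  have h1 : ((fderiv ℂ Phi q).restrictScalars ℝ).det = ‖J q‖ ^ 2 := by
    rw [← det_Phi (hQD hq), ← normSq_eq_norm_sq, ← Algebra.norm_complex_apply,
      ContinuousLinearMap.det, ContinuousLinearMap.det, ← LinearMap.det_restrictScalars]
    rfl
  simp only [h1]
  rw [abs_of_nonneg (by positivity), ENNReal.ofReal_pow (norm_nonneg _), ofReal_norm]

/-- Sets meeting each orbit at most once. -/
def Sep (Z : Set ℂ) : Prop :=
  ∀ z ∈ Z, ∀ z' ∈ Z, ∀ l ∈ L.lattice, (z' = z + l ∨ z' = -(z + l)) → z' = z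

theorem injOn_of_sep {Z : Set ℂ} (hZ : Sep Z) : InjOn Phi (D ∩ Z ×ˢ univ) := by
  rintro ⟨z, v⟩ ⟨⟨h1, -, -, h4⟩, hz, -⟩ ⟨z', v'⟩ ⟨⟨h1', -, -, h4'⟩, hz', -⟩ h
  simp only [Phi, Prod.mk.injEq] at h h1 h4 h1' h4' hz hz'
  obtain ⟨l, hl, h5⟩ := P_inj (Y_ne h1) (not_lat h1') h.1
  obtain rfl := hZ z hz z' hz' l hl h5
  rw [← V_W h1 h4, h.2, V_W h1' h4']

theorem sep_aux {z₀ : ℂ} (Z : Set ℂ) (hZ : Z ⊆ ball z₀ (1 / 4)) (k : ℤ)
    (h : (∀ z ∈ Z, (k : ℝ) < 2 * z.re ∧ 2 * z.re < k + 1) ∨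
      (∀ z ∈ Z, (k : ℝ) < 2 * z.im ∧ 2 * z.im < k + 1)) : Sep Z := by
  intro z hz z' hz' l hl h1
  obtain ⟨m, n, rfl⟩ := mem_lat.mp hl
  rcases h1 with h1 | h1
  · have h2 : ‖z' - z‖ < 1 / 2 := by
      have a := hZ hz
      have b := hZ hz'
      rw [mem_ball, dist_eq_norm] at a b
      calc ‖z' - z‖ = ‖(z' - z₀) - (z - z₀)‖ := by ring_nf
        _ ≤ ‖z' - z₀‖ + ‖z - z₀‖ := norm_sub_le _ _
        _ < 1 / 2 := by linarith
    rw [h1, add_sub_cancel_left] at h2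
    have h3 := abs_lt.mp ((abs_re_le_norm _).trans_lt h2)
    have h4 := abs_lt.mp ((abs_im_le_norm _).trans_lt h2)
    simp only [add_re, intCast_re, mul_re, I_re, mul_zero, intCast_im, I_im, mul_one, sub_self,
      add_zero, add_im, mul_im, zero_add] at h3 h4
    have m1 : (-1 : ℝ) < m := by linarith
    have m2 : (m : ℝ) < 1 := by linarith
    have n1 : (-1 : ℝ) < n := by linarith
    have n2 : (n : ℝ) < 1 := by linarith
    norm_cast at m1 m2 n1 n2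
    obtain rfl : m = 0 := by omega
    obtain rfl : n = 0 := by omega
    simpa using h1
  · exfalso
    have h3 := congrArg re h1
    have h4 := congrArg im h1
    simp only [add_re, intCast_re, mul_re, I_re, mul_zero, intCast_im, I_im, mul_one, sub_self,
      add_zero, add_im, mul_im, zero_add, neg_re, neg_im] at h3 h4
    rcases h with h | h
    · have a := h z hz
      have b := h z' hz'
      have m1 : (k : ℝ) < -m := by linarith
      have m2 : (-m : ℝ) < k + 1 := by linarith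
      norm_cast at m1 m2
      omega
    · have a := h z hz
      have b := h z' hz'
      have m1 : (k : ℝ) < -n := by linarith
      have m2 : (-n : ℝ) < k + 1 := by linarith
      norm_cast at m1 m2
      omega

theorem exists_cover (z₀ : ℂ) : ∃ Z : Fin 4 → Set ℂ, (∀ i, MeasurableSet (Z i)) ∧
    (∀ i, Sep (Z i)) ∧ (∀ i, Z i ⊆ ball z₀ (1 / 4)) ∧
    ∀ z ∈ ball z₀ (1 / 4), z ∉ S → ∃ i, z ∈ Z i := by
  set m : ℤ := round (2 * z₀.re)
  set n : ℤ := round (2 * z₀.im)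
  have hm := abs_le.mp (abs_sub_round (2 * z₀.re))
  have hn := abs_le.mp (abs_sub_round (2 * z₀.im))
  have hb : ∀ z ∈ ball z₀ (1 / 4), ((m : ℝ) - 1 < 2 * z.re ∧ 2 * z.re < m + 1) ∧
      ((n : ℝ) - 1 < 2 * z.im ∧ 2 * z.im < n + 1) := by
    intro z hz
    rw [mem_ball, dist_eq_norm] at hz
    have h3 := abs_lt.mp ((abs_re_le_norm _).trans_lt hz)
    have h4 := abs_lt.mp ((abs_im_le_norm _).trans_lt hz)
    rw [sub_re] at h3
    rw [sub_im] at h4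
    refine ⟨⟨?_, ?_⟩, ?_, ?_⟩ <;> linarith
  refine ⟨![ball z₀ (1 / 4) ∩ {z | (m : ℝ) < 2 * z.re}, ball z₀ (1 / 4) ∩ {z | 2 * z.re < m},
    ball z₀ (1 / 4) ∩ {z | (n : ℝ) < 2 * z.im}, ball z₀ (1 / 4) ∩ {z | 2 * z.im < n}],
    ?_, ?_, ?_, ?_⟩
  · intro i
    fin_cases i <;>
      exact measurableSet_ball.inter (IsOpen.measurableSet (isOpen_lt (by fun_prop) (by fun_prop)))
  · intro i
    fin_cases i
    · exact sep_aux _ inter_subset_left m (Or.inl fun z hz => ⟨hz.2, (hb z hz.1).1.2⟩)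
    · exact sep_aux _ inter_subset_left (m - 1) (Or.inl fun z hz =>
        ⟨by push_cast; exact (hb z hz.1).1.1, by push_cast; rw [sub_add_cancel]; exact hz.2⟩)
    · exact sep_aux _ inter_subset_left n (Or.inr fun z hz => ⟨hz.2, (hb z hz.1).2.2⟩)
    · exact sep_aux _ inter_subset_left (n - 1) (Or.inr fun z hz =>
        ⟨by push_cast; exact (hb z hz.1).2.1, by push_cast; rw [sub_add_cancel]; exact hz.2⟩)
  · intro i
    fin_cases i <;> exact inter_subset_left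
  · intro z hz hzS
    rcases lt_trichotomy (m : ℝ) (2 * z.re) with h1 | h1 | h1
    · exact ⟨0, hz, h1⟩
    · rcases lt_trichotomy (n : ℝ) (2 * z.im) with h2 | h2 | h2
      · exact ⟨2, hz, h2⟩
      · exfalso
        have h3 : z = -z + (m + n * I) := by
          apply Complex.ext <;> simp <;> linarith
        have h4 := Y_add (mem_lat.mpr ⟨m, n, rfl⟩) (-z)
        rw [← h3, Y_neg] at h4
        exact Y_ne hzS (by linear_combination h4 / 2)
      · exact ⟨3, hz, h2⟩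
    · exact ⟨1, hz, h1⟩

theorem subset_cover {z₀ : ℂ} {Z : Fin 4 → Set ℂ}
    (h : ∀ z ∈ ball z₀ (1 / 4), z ∉ S → ∃ i, z ∈ Z i) :
    D ∩ ball z₀ (1 / 4) ×ˢ univ ⊆ ⋃ i, D ∩ Z i ×ˢ univ := by
  rintro q ⟨hq, h1, -⟩
  obtain ⟨i, hi⟩ := h q.1 h1 hq.1
  exact mem_iUnion.mpr ⟨i, hq, hi, trivial⟩

theorem pull_le (z₀ : ℂ) (g : ℂ × ℂ → ℝ≥0∞) :
    ∫⁻ q in D ∩ ball z₀ (1 / 4) ×ˢ univ, ‖J q‖ₑ ^ 2 * g (Phi q) ≤ 4 * ∫⁻ p in Om, g p := by
  obtain ⟨Z, h1, h2, -, h4⟩ := exists_cover z₀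
  refine (lintegral_mono_set (subset_cover h4)).trans ((lintegral_iUnion_le _ _).trans ?_)
  rw [tsum_fintype]
  refine (Finset.sum_le_card_nsmul _ _ (∫⁻ p in Om, g p) fun i _ => ?_).trans (by simp)
  rw [← change_var (D_open.measurableSet.inter ((h1 i).prod MeasurableSet.univ))
    inter_subset_left (injOn_of_sep (h2 i))]
  apply lintegral_mono_set
  rintro _ ⟨q, hq, rfl⟩
  exact Phi_mem hq.1

theorem push_le (z₀ : ℂ) (g : ℂ × ℂ → ℝ≥0∞) :
    ∫⁻ p in Phi '' (D ∩ ball z₀ (1 / 4) ×ˢ univ), g p ≤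
      4 * ∫⁻ q in D ∩ ball z₀ (1 / 4) ×ˢ univ, ‖J q‖ₑ ^ 2 * g (Phi q) := by
  obtain ⟨Z, h1, h2, h3, h4⟩ := exists_cover z₀
  have h5 := image_mono (f := Phi) (subset_cover h4)
  rw [image_iUnion] at h5
  refine (lintegral_mono_set h5).trans ((lintegral_iUnion_le _ _).trans ?_)
  rw [tsum_fintype]
  refine (Finset.sum_le_card_nsmul _ _
    (∫⁻ q in D ∩ ball z₀ (1 / 4) ×ˢ univ, ‖J q‖ₑ ^ 2 * g (Phi q)) fun i _ => ?_).trans (by simp)
  rw [change_var (D_open.measurableSet.inter ((h1 i).prod MeasurableSet.univ))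
    inter_subset_left (injOn_of_sep (h2 i))]
  exact lintegral_mono_set (inter_subset_inter_right _ (prod_mono (h3 i) subset_rfl))

end Pool.Agent.P.MP_97162c_an
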