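import Mathlib

set_option autoImplicit false
set_option linter.dupNamespace false

open Set Filter Topology Metric Complex
open scoped Real

namespace Pool.Agent.P.MP_97162c_an

/-- The Gaussian lattice. -/
noncomputable def L : PeriodPair :=
  ⟨1, I, by simpa using Complex.basisOneI.linearIndependent⟩

/-- The Weierstrass function of the Gaussian lattice. -/
noncomputable def P : ℂ → ℂ := L.weierstrassP

/-- Its derivative. -/
noncomputable def Y : ℂ → ℂ := L.derivWeierstrassP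

/-- The cubic of the Weierstrass equation. -/
noncomputable def cub (x : ℂ) : ℂ := 4 * x ^ 3 - L.g₂ * x - L.g₃

/-- The shift. -/
noncomputable def sh : ℂ := ((1 / (4 * π) : ℝ) : ℂ)

noncomputable def A (z : ℂ) : ℂ := jacobiTheta₂ (z - sh) I

noncomputable def B (z : ℂ) : ℂ := jacobiTheta₂ (z + sh) I

/-- The multiplicative function with unitary multipliers. -/
noncomputable def s (z : ℂ) : ℂ := A z / B z

/-- The multiplier. -/
noncomputable def chi : ℂ := cexp I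

/-- The exceptional set. -/
def S : Set ℂ := {z | Y z = 0 ∨ A z = 0 ∨ B z = 0}

theorem mem_lat {z : ℂ} : z ∈ L.lattice ↔ ∃ m n : ℤ, (m : ℂ) + n * I = z := by
  rw [PeriodPair.mem_lattice]; simp [L]

theorem one_mem_lat : (1 : ℂ) ∈ L.lattice := mem_lat.mpr ⟨1, 0, by simp⟩

theorem I_mem_lat : I ∈ L.lattice := mem_lat.mpr ⟨0, 1, by simp⟩

theorem P_add {l : ℂ} (hl : l ∈ L.lattice) (z : ℂ) : P (z + l) = P z :=
  L.weierstrassP_add_coe z ⟨l, hl⟩

theorem Y_add {l : ℂ} (hl : l ∈ L.lattice) (z : ℂ) : Y (z + l) = Y z :=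
  L.derivWeierstrassP_add_coe z ⟨l, hl⟩

theorem P_neg (z : ℂ) : P (-z) = P z := L.weierstrassP_neg z

theorem Y_neg (z : ℂ) : Y (-z) = - Y z := L.derivWeierstrassP_neg z

theorem Y_lat {l : ℂ} (hl : l ∈ L.lattice) : Y l = 0 := L.derivWeierstrassP_coe ⟨l, hl⟩

theorem not_lat_of_Y {z : ℂ} (hz : Y z ≠ 0) : z ∉ L.lattice := fun h => hz (Y_lat h)

theorem Y_sq {z : ℂ} (hz : z ∉ L.lattice) : Y z ^ 2 = cub (P z) := L.derivWeierstrassP_sq z hz

theorem P_analytic {z : ℂ} (hz : z ∉ L.lattice) : AnalyticAt ℂ P z :=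
  L.analyticOnNhd_weierstrassP z hz

theorem Y_analytic {z : ℂ} (hz : z ∉ L.lattice) : AnalyticAt ℂ Y z :=
  L.analyticOnNhd_derivWeierstrassP z hz

theorem deriv_P : deriv P = Y := L.deriv_weierstrassP

theorem P_hasDerivAt {z : ℂ} (hz : z ∉ L.lattice) : HasDerivAt P (Y z) z := by
  rw [← deriv_P]; exact (P_analytic hz).differentiableAt.hasDerivAt

theorem P_tendsto {l : ℂ} (hl : l ∈ L.lattice) : Tendsto P (𝓝[≠] l) (Bornology.cobounded ℂ) := by
  apply tendsto_cobounded_of_meromorphicOrderAt_neg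
  rw [P, L.order_weierstrassP l hl]
  decide

theorem lat_open {z : ℂ} (hz : z ∉ L.lattice) : ∀ᶠ w in 𝓝 z, w ∉ L.lattice :=
  L.isClosed_lattice.isOpen_compl.mem_nhds hz

theorem Y_locfin (x : ℂ) : ∀ᶠ z in 𝓝[≠] x, Y z ≠ 0 := by
  have hm : MeromorphicOn Y univ := fun z _ => L.meromorphic_derivWeierstrassP z
  rw [← meromorphicOrderAt_ne_top_iff_eventually_ne_zero (hm x trivial)]
  refine hm.meromorphicOrderAt_ne_top_of_isPreconnected (x := 0) isPreconnected_univ trivial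
    trivial ?_
  have h1 : meromorphicOrderAt P 0 = ((-2 : ℤ) : WithTop ℤ) := by
    rw [P, L.order_weierstrassP 0 (zero_mem _)]; rfl
  rw [← deriv_P, meromorphicOrderAt_deriv_eq_sub_one (by norm_num) h1]
  exact WithTop.coe_ne_top

/-- The pair `(P, Y)` separates points modulo the lattice. -/
theorem sub_mem_lat_of_eq {z₁ z₂ : ℂ} (h₁ : Y z₁ ≠ 0) (hP : P z₁ = P z₂) (hY : Y z₁ = Y z₂) :
    z₂ - z₁ ∈ L.lattice := by
  have h₂ : Y z₂ ≠ 0 := hY ▸ h₁
  have n₁ := not_lat_of_Y h₁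
  have n₂ := not_lat_of_Y h₂
  have shift : ∀ (F : ℂ → ℂ) (z : ℂ), AnalyticAt ℂ F z → AnalyticAt ℂ (fun t => F (z + t)) 0 := by
    intro F z hF
    refine AnalyticAt.comp_of_eq (g := F) (f := fun t => z + t) hF (by fun_prop) (by simp)
  have aP₁ := shift _ _ (P_analytic n₁)
  have aP₂ := shift _ _ (P_analytic n₂)
  have aY₁ := shift _ _ (Y_analytic n₁)
  have aY₂ := shift _ _ (Y_analytic n₂)
  set h : ℂ → ℂ := fun t => P (z₁ + t) - P (z₂ + t) with hh
  have ah : AnalyticAt ℂ h 0 := aP₁.sub aP₂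
  have ev : ∀ z, z ∉ L.lattice → ∀ᶠ t in 𝓝 (0 : ℂ), z + t ∉ L.lattice := by
    intro z hz
    have : Tendsto (fun t : ℂ => z + t) (𝓝 0) (𝓝 z) := by
      have : Tendsto (fun t : ℂ => z + t) (𝓝 0) (𝓝 (z + 0)) := Continuous.tendsto (by fun_prop) _
      simpa using this
    exact this.eventually (lat_open hz)
  have hd : deriv h =ᶠ[𝓝 0] fun t => Y (z₁ + t) - Y (z₂ + t) := by
    filter_upwards [ev _ n₁, ev _ n₂] with t t₁ t₂
    exact (((P_hasDerivAt t₁).comp_const_add z₁ t).sub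
      ((P_hasDerivAt t₂).comp_const_add z₂ t)).deriv
  have hrel : (deriv h * fun t => Y (z₁ + t) + Y (z₂ + t)) =ᶠ[𝓝 0]
      (h * fun t => 4 * (P (z₁ + t) ^ 2 + P (z₁ + t) * P (z₂ + t) + P (z₂ + t) ^ 2) - L.g₂) := by
    filter_upwards [ev _ n₁, ev _ n₂, hd] with t t₁ t₂ t₃
    have e₁ := Y_sq t₁
    have e₂ := Y_sq t₂
    rw [Pi.mul_apply, Pi.mul_apply, t₃]
    simp only [hh]
    unfold cub at e₁ e₂
    linear_combination e₁ - e₂
  have ho := analyticOrderAt_congr hrel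
  have aq : AnalyticAt ℂ (fun t => 4 * (P (z₁ + t) ^ 2 + P (z₁ + t) * P (z₂ + t) +
      P (z₂ + t) ^ 2) - L.g₂) 0 :=
    (analyticAt_const.mul (((aP₁.pow 2).add (aP₁.mul aP₂)).add (aP₂.pow 2))).sub analyticAt_const
  have aY : AnalyticAt ℂ (fun t => Y (z₁ + t) + Y (z₂ + t)) 0 := aY₁.add aY₂
  rw [analyticOrderAt_mul ah.deriv aY, analyticOrderAt_mul ah aq,
    aY.analyticOrderAt_eq_zero.mpr (by
      simp only [add_zero, ← hY]
      intro h3
      exact h₁ (by linear_combination h3 / 2)), add_zero] at ho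
  have h4 := ah.analyticOrderAt_deriv_add_one
  have h0 : h 0 = 0 := by simp [hh, hP]
  simp only [h0, sub_zero] at h4
  have htop : analyticOrderAt h 0 = ⊤ := by
    by_contra hne
    rw [ho] at h4
    obtain ⟨n, hn⟩ := ENat.ne_top_iff_exists.mp hne
    have h5 : analyticOrderAt (fun x => h x) 0 = n := hn.symm
    rw [h5] at h4
    have h6 : (n : ℕ∞) + 1 ≤ n := by
      calc (n : ℕ∞) + 1 ≤ _ := by gcongr; exact le_self_add
        _ = n := h4
    norm_cast at h6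
    omega
  rw [analyticOrderAt_eq_top] at htop
  have hm : MeromorphicOn h univ := by
    intro t _
    have := L.meromorphic_weierstrassP
    have m : ∀ z, MeromorphicAt (fun t => P (z + t)) t := fun z =>
      MeromorphicAt.comp_analyticAt (f := P) (g := fun t => z + t) (this (z + t)) (by fun_prop)
    exact (m z₁).sub (m z₂)
  have h7 : meromorphicOrderAt h (-z₁) = ⊤ := by
    by_contra hne
    exact hm.meromorphicOrderAt_ne_top_of_isPreconnected (y := 0) isPreconnected_univ trivial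
      trivial hne (meromorphicOrderAt_eq_top_iff.mpr (htop.filter_mono nhdsWithin_le_nhds))
  rw [meromorphicOrderAt_eq_top_iff] at h7
  by_contra hne
  have h8 : Tendsto (fun t => P (z₁ + t)) (𝓝[≠] (-z₁)) (Bornology.cobounded ℂ) := by
    refine (P_tendsto (zero_mem _)).comp ?_
    refine tendsto_nhdsWithin_iff.mpr ⟨?_, ?_⟩
    · have : Tendsto (fun t : ℂ => z₁ + t) (𝓝 (-z₁)) (𝓝 (z₁ + -z₁)) :=
        Continuous.tendsto (by fun_prop) _
      simpa using this.mono_left nhdsWithin_le_nhds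
    · filter_upwards [self_mem_nhdsWithin] with t ht
      intro h9
      exact ht (by rw [mem_singleton_iff] at h9 ⊢; linear_combination h9)
  have h9 : Tendsto (fun t => P (z₂ + t)) (𝓝[≠] (-z₁)) (𝓝 (P (z₂ - z₁))) := by
    refine ((P_analytic hne).continuousAt.tendsto.comp ?_).mono_left nhdsWithin_le_nhds
    have : Tendsto (fun t : ℂ => z₂ + t) (𝓝 (-z₁)) (𝓝 (z₂ + -z₁)) :=
      Continuous.tendsto (by fun_prop) _
    simpa [sub_eq_add_neg] using this
  have h10 : Tendsto (fun t => P (z₁ + t)) (𝓝[≠] (-z₁)) (𝓝 (P (z₂ - z₁))) :=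
    h9.congr' (h7.mono fun t ht => (sub_eq_zero.mp ht).symm)
  exact h10.not_tendsto (disjoint_nhds_cobounded _) h8

/-- `P` has degree two. -/
theorem P_inj {z₁ z₂ : ℂ} (h₁ : Y z₁ ≠ 0) (h₂ : z₂ ∉ L.lattice) (hP : P z₁ = P z₂) :
    ∃ l ∈ L.lattice, z₂ = z₁ + l ∨ z₂ = -(z₁ + l) := by
  have h3 : Y z₁ ^ 2 = Y z₂ ^ 2 := by rw [Y_sq (not_lat_of_Y h₁), Y_sq h₂, hP]
  rcases sq_eq_sq_iff_eq_or_eq_neg.mp h3 with h | h
  · exact ⟨_, sub_mem_lat_of_eq h₁ hP h, Or.inl (by ring)⟩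
  · refine ⟨_, sub_mem_lat_of_eq (z₂ := -z₂) h₁ (by rw [P_neg, hP]) (by rw [Y_neg, h]),
      Or.inr (by ring)⟩

theorem theta_diff : Differentiable ℂ (fun z => jacobiTheta₂ z I) :=
  fun z => differentiableAt_jacobiTheta₂_fst z (by simp)

theorem A_diff : Differentiable ℂ A := theta_diff.comp (f := fun z => z - sh) (by fun_prop)

theorem B_diff : Differentiable ℂ B := theta_diff.comp (f := fun z => z + sh) (by fun_prop)

theorem theta_zero_ne : jacobiTheta₂ 0 I ≠ 0 := by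
  have h1 := hasSum_re (hasSum_jacobiTheta₂_term 0 (τ := I) (by simp))
  have h2 : ∀ n : ℤ, jacobiTheta₂_term n 0 I = ((Real.exp (-π * n ^ 2) : ℝ) : ℂ) := by
    intro n
    rw [jacobiTheta₂_term, ofReal_exp]
    congr 1
    push_cast
    linear_combination (π * n ^ 2 : ℂ) * I_mul_I
  simp only [h2, ofReal_re] at h1
  have h3 := le_hasSum h1 0 (fun n _ => (Real.exp_pos _).le)
  intro h
  rw [h] at h3
  simp only [zero_re] at h3
  exact absurd h3 (not_le.mpr (Real.exp_pos _))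

/-- The zeros of a nonzero entire function are isolated. -/
theorem entire_locfin {f : ℂ → ℂ} (hf : Differentiable ℂ f) {z₀ : ℂ} (h0 : f z₀ ≠ 0) (x : ℂ) :
    ∀ᶠ z in 𝓝[≠] x, f z ≠ 0 := by
  have ha : AnalyticOnNhd ℂ f univ := fun z _ => hf.analyticAt z
  rcases (ha x trivial).eventually_eq_zero_or_eventually_ne_zero with h | h
  · exact absurd (ha.eqOn_zero_of_preconnected_of_eventuallyEq_zero isPreconnected_univ
      (mem_univ x) h (mem_univ z₀)) h0
  · exact h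

theorem S_locfin (x : ℂ) : ∀ᶠ z in 𝓝[≠] x, z ∉ S := by
  have hA : A sh ≠ 0 := by simpa [A] using theta_zero_ne
  have hB : B (-sh) ≠ 0 := by simpa [B] using theta_zero_ne
  filter_upwards [Y_locfin x, entire_locfin A_diff hA x, entire_locfin B_diff hB x] with z a b c
  rintro (h | h | h)
  exacts [a h, b h, c h]

theorem A_neg (z : ℂ) : A (-z) = B z := by
  rw [A, B, ← jacobiTheta₂_neg_left]; congr 1; ring

theorem B_neg (z : ℂ) : B (-z) = A z := by
  rw [A, B, ← jacobiTheta₂_neg_left]; congr 1; ring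

theorem s_neg (z : ℂ) : s (-z) = (s z)⁻¹ := by
  rw [s, s, A_neg, B_neg, inv_div]

theorem A_add_one (z : ℂ) : A (z + 1) = A z := by
  rw [A, A, ← jacobiTheta₂_add_left (z - sh)]; congr 1; ring

theorem B_add_one (z : ℂ) : B (z + 1) = B z := by
  rw [B, B, ← jacobiTheta₂_add_left (z + sh)]; congr 1; ring

theorem A_add_I (z : ℂ) : A (z + I) = chi * cexp (-π * I * (I + 2 * (z + sh))) * A z := by
  have h1 : z + I - sh = (z - sh) + I := by ring
  rw [A, A, h1, jacobiTheta₂_add_left', chi, ← Complex.exp_add]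
  congr 2
  have h2 : (π : ℂ) ≠ 0 := ofReal_ne_zero.mpr Real.pi_ne_zero
  have h3 : (π : ℂ) * sh = 1 / 4 := by
    rw [sh]; push_cast; field_simp
  linear_combination (4 * I) * h3

theorem B_add_I (z : ℂ) : B (z + I) = cexp (-π * I * (I + 2 * (z + sh))) * B z := by
  have h1 : z + I + sh = (z + sh) + I := by ring
  rw [B, B, h1, jacobiTheta₂_add_left']

theorem norm_chi : ‖chi‖ = 1 := by
  simpa [chi] using norm_exp_ofReal_mul_I 1

theorem chi_ne_zero : chi ≠ 0 := exp_ne_zero _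

theorem chi_pow_inj : Function.Injective fun n : ℕ => chi ^ n := by
  intro m n h
  simp only [chi, ← exp_nat_mul] at h
  obtain ⟨k, hk⟩ := exp_eq_exp_iff_exists_int.mp h
  have h1 := congrArg im hk
  simp at h1
  by_contra hne
  have hk0 : k ≠ 0 := by
    rintro rfl
    apply hne
    simpa using h1
  have h2 : π = ((m - n : ℤ) : ℝ) / ((2 * k : ℤ) : ℝ) := by
    have : (k : ℝ) ≠ 0 := by exact_mod_cast hk0
    push_cast
    field_simp
    linarith
  exact irrational_pi.ne_rational _ _ h2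

theorem chi_ne_one : chi ≠ 1 := by
  intro h
  have := chi_pow_inj (a₁ := 1) (a₂ := 0) (by simpa using h)
  omega

theorem s_add_I (z : ℂ) : s (z + I) = chi * s z := by
  rw [s, s, A_add_I, B_add_I, mul_assoc, mul_div_assoc, mul_div_mul_left _ _ (exp_ne_zero _)]

theorem s_add_one (z : ℂ) : s (z + 1) = s z := by
  rw [s, s, A_add_one, B_add_one]

theorem neg_mem_S {z : ℂ} : -z ∈ S ↔ z ∈ S := by
  simp only [S, mem_ofPred_eq, Y_neg, A_neg, B_neg, neg_eq_zero]
  tauto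

theorem add_I_mem_S {z : ℂ} : z + I ∈ S ↔ z ∈ S := by
  simp [S, Y_add I_mem_lat, A_add_I, B_add_I, chi_ne_zero]

theorem add_one_mem_S {z : ℂ} : z + 1 ∈ S ↔ z ∈ S := by
  simp [S, Y_add one_mem_lat, A_add_one, B_add_one]

theorem lat_inv {l : ℂ} (hl : l ∈ L.lattice) (z : ℂ) :
    (z + l ∈ S ↔ z ∈ S) ∧ ∃ c : ℂ, ‖c‖ = 1 ∧ s (z + l) = c * s z := by
  have hl' : l ∈ Submodule.span ℤ {(1 : ℂ), I} := hl
  clear hl
  have hneg : ∀ l : ℂ, (∀ z, (z + l ∈ S ↔ z ∈ S) ∧ ∃ c : ℂ, ‖c‖ = 1 ∧ s (z + l) = c * s z) →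
      ∀ z, (z + -l ∈ S ↔ z ∈ S) ∧ ∃ c : ℂ, ‖c‖ = 1 ∧ s (z + -l) = c * s z := by
    intro l h z
    obtain ⟨h1, c, h2, h3⟩ := h (z + -l)
    rw [neg_add_cancel_right] at h1 h3
    have hc : c ≠ 0 := by rintro rfl; simp at h2
    exact ⟨h1.symm, c⁻¹, by rw [norm_inv, h2, inv_one], by rw [h3]; field_simp⟩
  have hadd : ∀ l l' : ℂ,
      (∀ z, (z + l ∈ S ↔ z ∈ S) ∧ ∃ c : ℂ, ‖c‖ = 1 ∧ s (z + l) = c * s z) →
      (∀ z, (z + l' ∈ S ↔ z ∈ S) ∧ ∃ c : ℂ, ‖c‖ = 1 ∧ s (z + l') = c * s z) →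
      ∀ z, (z + (l + l') ∈ S ↔ z ∈ S) ∧ ∃ c : ℂ, ‖c‖ = 1 ∧ s (z + (l + l')) = c * s z := by
    intro l l' h h' z
    obtain ⟨h1, c, h2, h3⟩ := h z
    obtain ⟨h1', c', h2', h3'⟩ := h' (z + l)
    rw [← add_assoc]
    exact ⟨h1'.trans h1, c' * c, by rw [norm_mul, h2, h2', one_mul], by rw [h3', h3, mul_assoc]⟩
  have hzero : ∀ z, (z + 0 ∈ S ↔ z ∈ S) ∧ ∃ c : ℂ, ‖c‖ = 1 ∧ s (z + 0) = c * s z :=
    fun z => ⟨by rw [add_zero], 1, norm_one, by rw [add_zero, one_mul]⟩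
  induction hl' using Submodule.span_induction generalizing z with
  | mem x hx =>
    rcases hx with rfl | rfl
    · exact ⟨add_one_mem_S, 1, norm_one, by rw [s_add_one, one_mul]⟩
    · exact ⟨add_I_mem_S, chi, norm_chi, s_add_I z⟩
  | zero => exact hzero z
  | add x y _ _ hx hy => exact hadd x y hx hy z
  | smul n x _ hx =>
    induction n using Int.induction_on generalizing z with
    | zero => rw [zero_smul]; exact hzero z
    | succ n ih => rw [add_smul, one_smul]; exact hadd _ _ ih hx z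
    | pred n ih => rw [sub_smul, one_smul, sub_eq_add_neg]; exact hadd _ _ ih (hneg _ hx) z

theorem Y_ne {z : ℂ} (hz : z ∉ S) : Y z ≠ 0 := fun h => hz (Or.inl h)

theorem A_ne {z : ℂ} (hz : z ∉ S) : A z ≠ 0 := fun h => hz (Or.inr (Or.inl h))

theorem B_ne {z : ℂ} (hz : z ∉ S) : B z ≠ 0 := fun h => hz (Or.inr (Or.inr h))

theorem s_ne {z : ℂ} (hz : z ∉ S) : s z ≠ 0 := div_ne_zero (A_ne hz) (B_ne hz)

theorem not_lat {z : ℂ} (hz : z ∉ S) : z ∉ L.lattice := not_lat_of_Y (Y_ne hz)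

theorem s_diffAt {z : ℂ} (hz : z ∉ S) : DifferentiableAt ℂ s z :=
  (A_diff z).div (B_diff z) (B_ne hz)

theorem exists_not_mem_S : ∃ z, z ∉ S := (S_locfin 0).exists

/-- The exceptional set for a fixed fibre coordinate. -/
def T (v : ℂ) : Set ℂ := {z | z ∈ S ∨ v + s z = 0}

theorem T_locfin (v x : ℂ) : ∀ᶠ z in 𝓝[≠] x, z ∉ T v := by
  obtain ⟨z₀, hz₀⟩ : ∃ z₀, v * B z₀ + A z₀ ≠ 0 := by
    by_contra h
    push Not at h
    obtain ⟨z, hz⟩ := exists_not_mem_S
    have h1 : ∀ w, w ∉ S → s w = -v := by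
      intro w hw
      rw [s, div_eq_iff (B_ne hw)]
      linear_combination h w
    have h2 := h1 (z + I) (fun h => hz (add_I_mem_S.mp h))
    rw [s_add_I, ← h1 z hz] at h2
    exact chi_ne_one (mul_right_cancel₀ (s_ne hz) (h2.trans (one_mul _).symm))
  filter_upwards [S_locfin x, entire_locfin (f := fun z => v * B z + A z)
    ((B_diff.const_mul v).add A_diff) hz₀ x] with z a b
  rintro (h | h)
  · exact a h
  · apply b
    have := B_ne a
    rw [s] at h
    field_simp at h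
    simpa using h

/-- Every point is congruent to a point of a fixed disc. -/
theorem exists_lat_norm_le (z : ℂ) : ∃ l ∈ L.lattice, ‖z + l‖ ≤ 2 := by
  refine ⟨_, mem_lat.mpr ⟨-⌊z.re⌋, -⌊z.im⌋, rfl⟩, (norm_le_abs_re_add_abs_im _).trans ?_⟩
  have h1 := Int.floor_le z.re
  have h2 := Int.lt_floor_add_one z.re
  have h3 := Int.floor_le z.im
  have h4 := Int.lt_floor_add_one z.im
  have e1 : (z + (((-⌊z.re⌋ : ℤ) : ℂ) + ((-⌊z.im⌋ : ℤ) : ℂ) * I)).re = z.re - ⌊z.re⌋ := by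
    simp [sub_eq_add_neg]
  have e2 : (z + (((-⌊z.re⌋ : ℤ) : ℂ) + ((-⌊z.im⌋ : ℤ) : ℂ) * I)).im = z.im - ⌊z.im⌋ := by
    simp [sub_eq_add_neg]
  rw [e1, e2, abs_of_nonneg (by linarith), abs_of_nonneg (by linarith)]
  linarith

end Pool.Agent.P.MP_97162c_an
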