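import Pool.Agent.P.MP_97162c_an.Basic
import Pool.Agent.P.MP_97162c_an.Data

set_option autoImplicit false
set_option linter.dupNamespace false

open Set Filter Topology Metric Complex
open scoped Real ComplexConjugate

namespace Pool.Agent.P.MP_97162c_an

/-- The fibre coordinate. -/
noncomputable def V (z w : ℂ) : ℂ := s z * (Y z + w) / (Y z - w)

/-- The domain. -/
def Om : Set (ℂ × ℂ) := {p | ∃ z, z ∉ S ∧ P z = p.1 ∧ 1 / 2 < ‖V z p.2‖ ∧ ‖V z p.2‖ < 2}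

/-- The finite set of exceptional values. -/
def F : Set ℂ := P '' (S \ L.lattice)

noncomputable def kap (t : ℝ) : ℝ := 1 / (4 - t ^ 2) + 1 / (4 - t⁻¹ ^ 2)

/-- A choice of preimage. -/
noncomputable def zz (x : ℂ) : ℂ := Classical.epsilon fun z => z ∉ S ∧ P z = x

theorem F_finite : F.Finite := by
  refine ((finite_inter_of_locfin S_locfin (isCompact_closedBall (0 : ℂ) 2)).image P).subset ?_
  rintro _ ⟨z, ⟨hz, -⟩, rfl⟩
  obtain ⟨l, hl, h⟩ := exists_lat_norm_le z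
  exact ⟨z + l, ⟨(lat_inv hl z).1.mpr hz, mem_closedBall_zero_iff.mpr h⟩, P_add hl z⟩

/-- The exhaustion function. -/
noncomputable def phi (p : ℂ × ℂ) : ℝ :=
  ‖p.1‖ ^ 2 + ‖p.2‖ ^ 2 + ∑ e ∈ F_finite.toFinset, ‖(p.1 - e)⁻¹‖ ^ 2 + kap ‖V (zz p.1) p.2‖

theorem kap_inv (t : ℝ) : kap t⁻¹ = kap t := by
  rw [kap, kap, inv_inv, add_comm]

theorem V_neg (z w : ℂ) : V (-z) w = (V z w)⁻¹ := by
  rw [V, V, s_neg, Y_neg, inv_div, div_mul_eq_div_div_swap, ← neg_div_neg_eq (Y z - w),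
    mul_div_assoc, mul_comm, div_eq_mul_inv _ (s z)]
  congr 2 <;> ring

theorem norm_V_add {l : ℂ} (hl : l ∈ L.lattice) (z w : ℂ) : ‖V (z + l) w‖ = ‖V z w‖ := by
  obtain ⟨-, c, hc, h⟩ := lat_inv hl z
  rw [V, V, h, Y_add hl, mul_assoc, mul_div_assoc, norm_mul, hc, one_mul]

theorem V_inv {z z' : ℂ} (hz : z ∉ S) (hz' : z' ∉ L.lattice) (h : P z = P z') :
    z' ∉ S ∧ ∀ w, ‖V z' w‖ = ‖V z w‖ ∨ ‖V z' w‖ = ‖V z w‖⁻¹ := by
  obtain ⟨l, hl, rfl | rfl⟩ := P_inj (Y_ne hz) hz' h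
  · exact ⟨fun h => hz ((lat_inv hl z).1.mp h), fun w => Or.inl (norm_V_add hl z w)⟩
  · refine ⟨fun h => hz ((lat_inv hl z).1.mp (neg_mem_S.mp h)), fun w => Or.inr ?_⟩
    rw [V_neg, norm_inv, norm_V_add hl]

theorem zz_spec {z : ℂ} (hz : z ∉ S) : zz (P z) ∉ S ∧ P (zz (P z)) = P z :=
  Classical.epsilon_spec (p := fun w => w ∉ S ∧ P w = P z) ⟨z, hz, rfl⟩

theorem kap_zz {z : ℂ} (hz : z ∉ S) (w : ℂ) : kap ‖V (zz (P z)) w‖ = kap ‖V z w‖ := by
  obtain ⟨h1, h2⟩ := zz_spec hz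
  rcases (V_inv hz (not_lat h1) h2.symm).2 w with h | h
  · rw [h]
  · rw [h, kap_inv]

theorem P_not_mem_F {z : ℂ} (hz : z ∉ S) : P z ∉ F := by
  rintro ⟨z', ⟨h1, h2⟩, h3⟩
  exact (V_inv hz h2 h3.symm).1 h1

theorem S_closed : IsClosed S := isClosed_of_locfin S_locfin

theorem exists_localInv {z : ℂ} (hz : z ∉ S) : ∃ ι : ℂ → ℂ, AnalyticAt ℂ ι (P z) ∧
    ι (P z) = z ∧ ∀ᶠ x in 𝓝 (P z), P (ι x) = x ∧ ι x ∉ S := by
  have ha := P_analytic (not_lat hz)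
  have hd : deriv P z ≠ 0 := by rw [deriv_P]; exact Y_ne hz
  have h1 := ha.analyticAt_localInverse hd
  have h2 : ha.hasStrictDerivAt.localInverse _ _ _ hd (P z) = z :=
    HasStrictFDerivAt.localInverse_apply_image ..
  refine ⟨_, h1, h2, (HasStrictDerivAt.eventually_right_inverse ..).and ?_⟩
  apply h1.continuousAt.eventually (p := fun w => w ∉ S)
  rw [h2]
  exact S_closed.isOpen_compl.mem_nhds hz

theorem sub_ne_of_V {z w : ℂ} (h : 1 / 2 < ‖V z w‖) : Y z - w ≠ 0 := by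
  intro h0
  rw [V, h0, div_zero, norm_zero] at h
  linarith

theorem s_analytic {z : ℂ} (hz : z ∉ S) : AnalyticAt ℂ s z :=
  (A_diff.analyticAt z).div (B_diff.analyticAt z) (B_ne hz)

/-- Local description of the domain. -/
theorem exists_local {p : ℂ × ℂ} (hp : p ∈ Om) : ∃ v : ℂ × ℂ → ℂ, AnalyticAt ℂ v p ∧
    1 / 2 < ‖v p‖ ∧ ‖v p‖ < 2 ∧
    ∀ᶠ q in 𝓝 p, q ∈ Om ∧ kap ‖V (zz q.1) q.2‖ = kap ‖v q‖ := by
  obtain ⟨z, hz, h1, h2, h3⟩ := hp
  obtain ⟨ι, a1, a2, a3⟩ := exists_localInv hz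
  have b1 : AnalyticAt ℂ (fun q : ℂ × ℂ => ι q.1) p :=
    AnalyticAt.comp_of_eq (g := ι) (f := Prod.fst) a1 analyticAt_fst h1.symm
  have b2 : ι p.1 = z := by rw [← h1, a2]
  have b3 : AnalyticAt ℂ (fun q : ℂ × ℂ => s (ι q.1)) p :=
    AnalyticAt.comp_of_eq (g := s) (s_analytic hz) b1 b2
  have b4 : AnalyticAt ℂ (fun q : ℂ × ℂ => Y (ι q.1)) p :=
    AnalyticAt.comp_of_eq (g := Y) (Y_analytic (not_lat hz)) b1 b2
  have b5 : AnalyticAt ℂ (fun q : ℂ × ℂ => V (ι q.1) q.2) p := by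
    refine (b3.mul (b4.add analyticAt_snd)).div (b4.sub analyticAt_snd) ?_
    simp only [b2]
    exact sub_ne_of_V h2
  refine ⟨fun q => V (ι q.1) q.2, b5, by simpa only [b2] using h2, by simpa only [b2] using h3, ?_⟩
  have c1 : ∀ᶠ q : ℂ × ℂ in 𝓝 p, P (ι q.1) = q.1 ∧ ι q.1 ∉ S := by
    have : Tendsto Prod.fst (𝓝 p) (𝓝 (P z)) := h1 ▸ continuous_fst.tendsto p
    exact this.eventually a3
  have c2 : ∀ᶠ q : ℂ × ℂ in 𝓝 p, 1 / 2 < ‖V (ι q.1) q.2‖ :=
    continuousAt_const.eventually_lt b5.continuousAt.norm (by simpa only [b2] using h2)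
  have c3 : ∀ᶠ q : ℂ × ℂ in 𝓝 p, ‖V (ι q.1) q.2‖ < 2 :=
    b5.continuousAt.norm.eventually_lt continuousAt_const (by simpa only [b2] using h3)
  filter_upwards [c1, c2, c3] with q d1 d2 d3
  refine ⟨⟨_, d1.2, d1.1, d2, d3⟩, ?_⟩
  have := kap_zz d1.2 q.2
  rwa [d1.1] at this

theorem Om_open : IsOpen Om := by
  rw [isOpen_iff_mem_nhds]
  intro p hp
  obtain ⟨v, -, -, -, h⟩ := exists_local hp
  exact h.mono fun q hq => hq.1

/-- Continuity together with a holomorphic support from below. -/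
def Good (u : ℂ × ℂ → ℝ) (p : ℂ × ℂ) : Prop :=
  ContinuousAt u p ∧ ∃ g : ℂ × ℂ → ℂ, AnalyticAt ℂ g p ∧ (∀ᶠ q in 𝓝 p, (g q).re ≤ u q) ∧
    (g p).re = u p

theorem Good.add {u u' : ℂ × ℂ → ℝ} {p : ℂ × ℂ} (h : Good u p) (h' : Good u' p) :
    Good (fun q => u q + u' q) p := by
  obtain ⟨a, g, b, c, d⟩ := h
  obtain ⟨a', g', b', c', d'⟩ := h'
  refine ⟨a.add a', fun q => g q + g' q, b.add b', ?_, by simp [d, d']⟩
  filter_upwards [c, c'] with q e e'
  rw [add_re]; linarith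

theorem Good.sum {ι : Type*} {u : ι → ℂ × ℂ → ℝ} {p : ℂ × ℂ} (t : Finset ι)
    (h : ∀ i ∈ t, Good (u i) p) : Good (fun q => ∑ i ∈ t, u i q) p := by
  classical
  induction t using Finset.induction_on with
  | empty => exact ⟨continuousAt_const, fun _ => 0, analyticAt_const, by simp, by simp⟩
  | insert i t hi ih =>
    simp only [Finset.sum_insert hi]
    exact (h i (Finset.mem_insert_self _ _)).add
      (ih fun j hj => h j (Finset.mem_insert_of_mem hj))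

theorem Good.congr {u u' : ℂ × ℂ → ℝ} {p : ℂ × ℂ} (h : Good u p) (h' : u =ᶠ[𝓝 p] u') :
    Good u' p := by
  obtain ⟨a, g, b, c, d⟩ := h
  refine ⟨a.congr h', g, b, ?_, d.trans h'.self_of_nhds⟩
  filter_upwards [c, h'] with q e e'
  rwa [← e']

theorem good_normSq {h : ℂ × ℂ → ℂ} {p : ℂ × ℂ} (hh : AnalyticAt ℂ h p) :
    Good (fun q => ‖h q‖ ^ 2) p := by
  refine ⟨hh.continuousAt.norm.pow 2, fun q => 2 * conj (h p) * h q - conj (h p) * h p,
    (analyticAt_const.mul hh).sub analyticAt_const, Eventually.of_forall fun q => ?_, ?_⟩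
  · simp only
    rw [← normSq_eq_norm_sq, normSq_apply]
    simp only [sub_re, mul_re, conj_re, conj_im, mul_im, re_ofNat, im_ofNat]
    nlinarith [sq_nonneg ((h q).re - (h p).re), sq_nonneg ((h q).im - (h p).im)]
  · simp only
    rw [← normSq_eq_norm_sq, normSq_apply]
    simp only [sub_re, mul_re, conj_re, conj_im, mul_im, re_ofNat, im_ofNat]
    ring

theorem good_inv {h : ℂ × ℂ → ℂ} {p : ℂ × ℂ} (hh : AnalyticAt ℂ h p) (h2 : ‖h p‖ < 2) :
    Good (fun q => 1 / (4 - ‖h q‖ ^ 2)) p := by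
  obtain ⟨a, g, b, c, d⟩ := good_normSq hh
  have hp : 0 < 4 - ‖h p‖ ^ 2 := by nlinarith [norm_nonneg (h p)]
  have hq : ∀ᶠ q in 𝓝 p, 0 < 4 - ‖h q‖ ^ 2 :=
    continuousAt_const.eventually_lt (continuousAt_const.sub a) hp
  set t₀ : ℝ := ‖h p‖ ^ 2 with ht₀
  refine ⟨continuousAt_const.div (continuousAt_const.sub a) hp.ne',
    fun q => ((1 / (4 - t₀) : ℝ) : ℂ) + ((1 / (4 - t₀) ^ 2 : ℝ) : ℂ) * (g q - (t₀ : ℂ)),
    analyticAt_const.add (analyticAt_const.mul (b.sub analyticAt_const)), ?_, ?_⟩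
  · filter_upwards [c, hq] with q e e'
    rw [add_re, re_ofReal_mul, ofReal_re, sub_re, ofReal_re]
    set t : ℝ := ‖h q‖ ^ 2
    have h3 : 1 / (4 - t₀) + 1 / (4 - t₀) ^ 2 * (t - t₀) ≤ 1 / (4 - t) := by
      have : 1 / (4 - t) - (1 / (4 - t₀) + 1 / (4 - t₀) ^ 2 * (t - t₀)) =
          (t - t₀) ^ 2 / ((4 - t) * (4 - t₀) ^ 2) := by
        field_simp; ring
      have h4 : 0 ≤ (t - t₀) ^ 2 / ((4 - t) * (4 - t₀) ^ 2) := by positivity
      linarith
    refine le_trans ?_ h3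
    gcongr
  · simp only at d ⊢
    rw [add_re, re_ofReal_mul, ofReal_re, sub_re, ofReal_re, d, sub_self, mul_zero, add_zero]

theorem fst_not_mem_F {p : ℂ × ℂ} (hp : p ∈ Om) : p.1 ∉ F := by
  obtain ⟨z, hz, h1, -⟩ := hp
  rw [← h1]; exact P_not_mem_F hz

theorem good_phi {p : ℂ × ℂ} (hp : p ∈ Om) : Good phi p := by
  obtain ⟨v, a, b, c, d⟩ := exists_local hp
  have hv : v p ≠ 0 := by
    intro h; rw [h, norm_zero] at b; linarith
  refine (((good_normSq analyticAt_fst).add (good_normSq analyticAt_snd)).add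
    (Good.sum _ fun e he => good_normSq ((analyticAt_fst.sub analyticAt_const).inv ?_))).add ?_
  · rw [Finite.mem_toFinset] at he
    intro h
    have h' : p.1 = e := sub_eq_zero.mp h
    exact fst_not_mem_F hp (by rwa [h'])
  · refine ((good_inv a c).add (good_inv (a.inv hv) ?_)).congr ?_
    · rw [Pi.inv_apply, norm_inv, inv_lt_comm₀ (by linarith) (by norm_num)]
      linarith
    · filter_upwards [d] with q hq
      rw [hq.2, kap, Pi.inv_apply, norm_inv]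

theorem kap_bound {t c : ℝ} (h1 : 1 / 2 < t) (h2 : t < 2) (h : kap t ≤ c) :
    0 < c ∧ t ^ 2 ≤ 4 - 1 / c ∧ 1 ≤ (4 - 1 / c) * t ^ 2 := by
  have ht : 0 < t := by linarith
  have h3 : 0 < 4 - t ^ 2 := by nlinarith
  have h4 : t⁻¹ < 2 := by rw [inv_lt_comm₀ ht (by norm_num)]; linarith
  have h5 : 0 < 4 - t⁻¹ ^ 2 := by nlinarith [inv_pos.mpr ht]
  have h6 : 0 < 1 / (4 - t ^ 2) := by positivity
  have h7 : 0 < 1 / (4 - t⁻¹ ^ 2) := by positivity
  unfold kap at h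
  have hc : 0 < c := by linarith
  have h8 : 1 / c ≤ 4 - t ^ 2 := by
    rw [one_div_le hc h3]; linarith
  have h9 : 1 / c ≤ 4 - t⁻¹ ^ 2 := by
    rw [one_div_le hc h5]; linarith
  refine ⟨hc, by linarith, ?_⟩
  have h10 : t⁻¹ ^ 2 * t ^ 2 = 1 := by field_simp
  nlinarith [sq_nonneg t]

theorem kap_pos {t : ℝ} (h1 : 1 / 2 < t) (h2 : t < 2) : 0 < kap t := (kap_bound h1 h2 le_rfl).1

theorem exists_rep {p : ℂ × ℂ} (hp : p ∈ Om) : ∃ z, ‖z‖ ≤ 2 ∧ z ∉ S ∧ P z = p.1 ∧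
    1 / 2 < ‖V z p.2‖ ∧ ‖V z p.2‖ < 2 := by
  obtain ⟨z, hz, h1, h2, h3⟩ := hp
  obtain ⟨l, hl, h⟩ := exists_lat_norm_le z
  exact ⟨z + l, h, fun h => hz ((lat_inv hl z).1.mp h), by rw [P_add hl, h1],
    by rwa [norm_V_add hl], by rwa [norm_V_add hl]⟩

theorem phi_bounds {p : ℂ × ℂ} {c : ℝ} {z : ℂ} (hz : z ∉ S) (h1 : P z = p.1)
    (h2 : 1 / 2 < ‖V z p.2‖) (h3 : ‖V z p.2‖ < 2) (h : phi p ≤ c) :
    ‖p.1‖ ^ 2 ≤ c ∧ ‖p.2‖ ^ 2 ≤ c ∧ (∀ e ∈ F, ‖(p.1 - e)⁻¹‖ ^ 2 ≤ c) ∧ kap ‖V z p.2‖ ≤ c := by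
  have k1 := kap_zz hz p.2
  rw [h1] at k1
  rw [phi, k1] at h
  have k2 := kap_pos h2 h3
  have k3 : 0 ≤ ∑ e ∈ F_finite.toFinset, ‖(p.1 - e)⁻¹‖ ^ 2 :=
    Finset.sum_nonneg fun _ _ => by positivity
  have k4 : 0 ≤ ‖p.1‖ ^ 2 := by positivity
  have k5 : 0 ≤ ‖p.2‖ ^ 2 := by positivity
  refine ⟨by linarith, by linarith, fun e he => ?_, by linarith⟩
  have k6 := Finset.single_le_sum (s := F_finite.toFinset) (f := fun e => ‖(p.1 - e)⁻¹‖ ^ 2)
    (fun _ _ => by positivity) (F_finite.mem_toFinset.mpr he)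
  linarith

theorem sublevel_compact (c : ℝ) : IsCompact {p | p ∈ Om ∧ phi p ≤ c} := by
  apply Metric.isCompact_of_isClosed_isBounded
  · apply IsSeqClosed.isClosed
    intro x p hx hlim
    suffices hp : p ∈ Om from
      ⟨hp, le_of_tendsto' ((good_phi hp).1.tendsto.comp hlim) fun n => (hx n).2⟩
    choose z z1 z2 z3 z4 z5 using fun n => exists_rep (hx n).1
    have hb := fun n => phi_bounds (z2 n) (z3 n) (z4 n) (z5 n) (hx n).2
    obtain ⟨a, -, σ, hσ, ha⟩ := (isCompact_closedBall (0 : ℂ) 2).tendsto_subseq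
      (x := z) (fun n => mem_closedBall_zero_iff.mpr (z1 n))
    have l1 : Tendsto (fun n => (x (σ n)).1) atTop (𝓝 p.1) :=
      (continuous_fst.tendsto p).comp (hlim.comp hσ.tendsto_atTop)
    have l2 : Tendsto (fun n => (x (σ n)).2) atTop (𝓝 p.2) :=
      (continuous_snd.tendsto p).comp (hlim.comp hσ.tendsto_atTop)
    have l3 : Tendsto (fun n => P (z (σ n))) atTop (𝓝 p.1) := by simpa only [z3] using l1
    have hal : a ∉ L.lattice := by
      intro h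
      have l4 : Tendsto (z ∘ σ) atTop (𝓝[≠] a) :=
        tendsto_nhdsWithin_iff.mpr ⟨ha, Eventually.of_forall fun n hn => by
          rw [mem_singleton_iff] at hn
          exact not_lat (z2 (σ n)) (by rw [← hn] at h; exact h)⟩
      exact l3.not_tendsto (disjoint_nhds_cobounded _) ((P_tendsto h).comp l4)
    have hPa : P a = p.1 :=
      tendsto_nhds_unique ((P_analytic hal).continuousAt.tendsto.comp ha) l3
    have haS : a ∉ S := by
      intro h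
      have he : p.1 ∈ F := ⟨a, ⟨h, hal⟩, hPa⟩
      have l5 : Tendsto (fun n => c * ‖(x (σ n)).1 - p.1‖ ^ 2) atTop (𝓝 (c * ‖p.1 - p.1‖ ^ 2)) :=
        ((l1.sub_const _).norm.pow 2).const_mul c
      have l6 : ∀ n, 1 ≤ c * ‖(x (σ n)).1 - p.1‖ ^ 2 := by
        intro n
        have h1 := (hb (σ n)).2.2.1 _ he
        have h2 : (x (σ n)).1 - p.1 ≠ 0 := by
          intro h3
          exact fst_not_mem_F (hx (σ n)).1 (by rwa [sub_eq_zero.mp h3])
        have h3 : 0 < ‖(x (σ n)).1 - p.1‖ := norm_pos_iff.mpr h2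
        rw [norm_inv, inv_pow, inv_le_iff_one_le_mul₀ (by positivity)] at h1
        exact h1
      have := ge_of_tendsto' l5 l6
      simp at this
      linarith
    have l7 : Tendsto (fun n => s (z (σ n))) atTop (𝓝 (s a)) :=
      (s_analytic haS).continuousAt.tendsto.comp ha
    have l8 : Tendsto (fun n => Y (z (σ n))) atTop (𝓝 (Y a)) :=
      (Y_analytic hal).continuousAt.tendsto.comp ha
    have hne : Y a - p.2 ≠ 0 := by
      intro h0
      have l9 : ∀ n, ‖s (z (σ n)) * (Y (z (σ n)) + (x (σ n)).2)‖ ≤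
          2 * ‖Y (z (σ n)) - (x (σ n)).2‖ := by
        intro n
        have h1 := z5 (σ n)
        rw [V, norm_div, div_lt_iff₀ (norm_pos_iff.mpr (sub_ne_of_V (z4 (σ n))))] at h1
        exact h1.le
      have l10 := le_of_tendsto_of_tendsto' (l7.mul (l8.add l2)).norm
        ((l8.sub l2).norm.const_mul 2) l9
      rw [h0, norm_zero, mul_zero, norm_le_zero_iff, mul_eq_zero] at l10
      rcases l10 with h | h
      · exact s_ne haS h
      · exact Y_ne haS (by linear_combination (h + h0) / 2)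
    have l11 : Tendsto (fun n => ‖V (z (σ n)) (x (σ n)).2‖) atTop (𝓝 ‖V a p.2‖) :=
      ((l7.mul (l8.add l2)).div (l8.sub l2) hne).norm
    have hk := fun n => kap_bound (z4 n) (z5 n) (hb n).2.2.2
    have hc : 0 < 1 / c := one_div_pos.mpr (hk 0).1
    have m1 := le_of_tendsto' (l11.pow 2) fun n => (hk (σ n)).2.1
    have m2 := ge_of_tendsto' ((l11.pow 2).const_mul (4 - 1 / c)) fun n => (hk (σ n)).2.2
    have m3 := norm_nonneg (V a p.2)
    refine ⟨a, haS, hPa, ?_, ?_⟩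
    · by_contra hh
      push Not at hh
      have m4 : ‖V a p.2‖ ^ 2 ≤ 1 / 4 := by nlinarith
      have m5 : 0 < ‖V a p.2‖ ^ 2 := by
        by_contra m6
        have m7 : ‖V a p.2‖ ^ 2 = 0 := le_antisymm (not_lt.mp m6) (by positivity)
        rw [m7] at m2
        linarith
      nlinarith
    · nlinarith
  · rw [isBounded_iff_forall_norm_le]
    refine ⟨c + 1, ?_⟩
    rintro p ⟨hp, h⟩
    obtain ⟨z, hz, h1, h2, h3⟩ := hp
    obtain ⟨k1, k2, -⟩ := phi_bounds hz h1 h2 h3 h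
    rw [Prod.norm_def, max_le_iff]
    constructor <;> nlinarith [norm_nonneg p.1, norm_nonneg p.2]

theorem Om_nonempty : Om.Nonempty := by
  obtain ⟨z, hz⟩ := (T_locfin 1 0).exists
  rw [T, mem_ofPred_eq, not_or] at hz
  have h1 := Y_ne hz.1
  have h2 := s_ne hz.1
  have h3 := hz.2
  have : V z (Y z * (1 - s z) / (1 + s z)) = 1 := by
    have h4 : Y z - Y z * (1 - s z) / (1 + s z) = 2 * s z * Y z / (1 + s z) := by
      field_simp; ring
    rw [V, h4]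
    field_simp
    ring
  refine ⟨(P z, Y z * (1 - s z) / (1 + s z)), z, hz.1, rfl, ?_, ?_⟩ <;> simp only [this] <;>
    norm_num

end Pool.Agent.P.MP_97162c_an
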