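import Mathlib

set_option autoImplicit false

open Set Filter Topology MeasureTheory Metric Complex
open scoped ENNReal Real ComplexConjugate

namespace Pool.Agent.P.MP_97162c_an

/-- Maximum principle for functions supported from below by real parts of holomorphic functions. -/
theorem le_re_of_support {u : ℂ → ℝ} (hu : ContinuousOn u (closedBall 0 1))
    (hs : ∀ z ∈ ball (0 : ℂ) 1, ∃ g : ℂ → ℂ,
      (∀ᶠ w in 𝓝 z, DifferentiableAt ℂ g w ∧ (g w).re ≤ u w) ∧ (g z).re = u z)
    {p : ℂ → ℂ} (hp : Differentiable ℂ p) (hb : ∀ z ∈ sphere (0 : ℂ) 1, u z ≤ (p z).re) :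
    u 0 ≤ (p 0).re := by
  set h : ℂ → ℝ := fun z => u z - (p z).re with hh
  have hc : ContinuousOn h (closedBall 0 1) :=
    hu.sub (continuous_re.comp hp.continuous).continuousOn
  have h0 : (0 : ℂ) ∈ closedBall (0 : ℂ) 1 := mem_closedBall_self zero_le_one
  obtain ⟨q, hq, hqm⟩ := (isCompact_closedBall (0 : ℂ) 1).exists_isMaxOn ⟨0, h0⟩ hc
  have hK : IsCompact (closedBall (0 : ℂ) 1 ∩ h ⁻¹' {h q}) :=
    (isCompact_closedBall (0 : ℂ) 1).of_isClosed_subset
      (hc.preimage_isClosed_of_isClosed isClosed_closedBall isClosed_singleton) inter_subset_left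
  obtain ⟨z, ⟨hz, hzq⟩, hzm⟩ := hK.exists_isMaxOn ⟨q, hq, rfl⟩
    (f := fun z : ℂ => ‖z‖) continuous_norm.continuousOn
  have hzq : h z = h q := hzq
  have hz1 : ‖z‖ = 1 := by
    by_contra hne
    have hzb : z ∈ ball (0 : ℂ) 1 := by
      rw [mem_closedBall_zero_iff] at hz
      rw [mem_ball_zero_iff]
      exact lt_of_le_of_ne hz hne
    obtain ⟨g, hg, hgz⟩ := hs z hzb
    have hball : ∀ᶠ w in 𝓝 z, w ∈ closedBall (0 : ℂ) 1 :=
      mem_of_superset (isOpen_ball.mem_nhds hzb) ball_subset_closedBall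
    have hnorm : ∀ w, ‖cexp (g w - p w)‖ = Real.exp ((g w).re - (p w).re) := by
      intro w; rw [norm_exp, sub_re]
    have h1 : ∀ᶠ w in 𝓝 z, ‖cexp (g w - p w)‖ = ‖cexp (g z - p z)‖ := by
      apply norm_eventually_eq_of_isLocalMax (f := fun w => cexp (g w - p w))
      · filter_upwards [hg] with w hw
        exact (hw.1.sub (hp w)).cexp
      · filter_upwards [hg, hball] with w hw hw2
        simp only [Function.comp, hnorm, Real.exp_le_exp]
        have := hqm hw2
        simp only [mem_ofPred_eq, hh] at this hzq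
        linarith [hw.2]
    have h2 : closedBall (0 : ℂ) ‖z‖ ∈ 𝓝 z := by
      filter_upwards [h1, hg, hball] with w hw hw1 hw2
      rw [hnorm, hnorm, Real.exp_eq_exp] at hw
      have h3 := hqm hw2
      simp only [mem_ofPred_eq, hh] at h3 hzq
      have h4 : h w = h q := by
        simp only [hh]
        linarith [hw1.2]
      rw [mem_closedBall_zero_iff]
      exact hzm ⟨hw2, h4⟩
    rw [← mem_interior_iff_mem_nhds, interior_closedBall', mem_ball_zero_iff] at h2
    exact lt_irrefl _ h2
  have h5 := hb z (mem_sphere_zero_iff_norm.mpr hz1)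
  have h6 := hqm h0
  simp only [mem_ofPred_eq, hh] at h6 hzq
  linarith

/-- Uniform approximation on the unit circle by real parts of entire functions. -/
theorem exists_entire_approx {u : ℂ → ℝ} (hu : ContinuousOn u (sphere 0 1)) {ε : ℝ} (hε : 0 < ε) :
    ∃ p : ℂ → ℂ, Differentiable ℂ p ∧ ∀ z ∈ sphere (0 : ℂ) 1, |u z - (p z).re| < ε := by
  have : Fact (0 < (1 : ℝ)) := ⟨one_pos⟩
  have hmem : ∀ x : AddCircle (1 : ℝ), ((AddCircle.toCircle x : Circle) : ℂ) ∈ sphere (0 : ℂ) 1 :=
    fun x => (AddCircle.toCircle x).2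
  have hcont : Continuous fun x : AddCircle (1 : ℝ) => ((AddCircle.toCircle x : Circle) : ℂ) :=
    continuous_subtype_val.comp AddCircle.continuous_toCircle
  let v : C(AddCircle (1 : ℝ), ℂ) := ⟨fun x => (u (AddCircle.toCircle x : Circle) : ℂ),
    continuous_ofReal.comp (hu.comp_continuous hcont hmem)⟩
  have hv : v ∈ (Submodule.span ℂ (range <| @fourier 1)).topologicalClosure := by
    rw [span_fourier_closure_eq_top]; trivial
  have hv' : v ∈ closure ((Submodule.span ℂ (range <| @fourier 1) : Submodule ℂ _) : Set _) := hv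
  obtain ⟨q, hq, hqv⟩ := Metric.mem_closure_iff.mp hv' ε hε
  have hspan : ∀ q ∈ Submodule.span ℂ (range <| @fourier 1), ∃ p₁ p₂ : ℂ → ℂ,
      Differentiable ℂ p₁ ∧ Differentiable ℂ p₂ ∧ ∀ x : AddCircle (1 : ℝ),
        q x = p₁ (AddCircle.toCircle x : Circle) + conj (p₂ (AddCircle.toCircle x : Circle)) := by
    intro q hq
    induction hq using Submodule.span_induction with
    | mem f hf =>
      obtain ⟨n, rfl⟩ := hf
      obtain ⟨m, rfl | rfl⟩ := n.eq_nat_or_neg
      · refine ⟨fun z => z ^ m, fun _ => 0, by fun_prop, by fun_prop, fun x => ?_⟩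
        rw [fourier_apply, AddCircle.toCircle_zsmul]
        simp
      · refine ⟨fun _ => 0, fun z => z ^ m, by fun_prop, by fun_prop, fun x => ?_⟩
        rw [fourier_neg, fourier_apply, AddCircle.toCircle_zsmul]
        simp
    | zero => exact ⟨fun _ => 0, fun _ => 0, by fun_prop, by fun_prop, fun x => by simp⟩
    | add f g _ _ hf hg =>
      obtain ⟨a₁, a₂, h1, h2, h3⟩ := hf
      obtain ⟨b₁, b₂, h4, h5, h6⟩ := hg
      refine ⟨fun z => a₁ z + b₁ z, fun z => a₂ z + b₂ z, h1.add h4, h2.add h5, fun x => ?_⟩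
      rw [ContinuousMap.add_apply, h3, h6, map_add]; ring
    | smul c f _ hf =>
      obtain ⟨a₁, a₂, h1, h2, h3⟩ := hf
      refine ⟨fun z => c * a₁ z, fun z => conj c * a₂ z, h1.const_mul _, h2.const_mul _,
        fun x => ?_⟩
      rw [ContinuousMap.smul_apply, h3, map_mul, conj_conj, smul_eq_mul]; ring
  obtain ⟨p₁, p₂, h1, h2, h3⟩ := hspan q hq
  refine ⟨fun z => p₁ z + p₂ z, h1.add h2, fun z hz => ?_⟩
  obtain ⟨x, hx⟩ := (AddCircle.homeomorphCircle (T := (1 : ℝ)) one_ne_zero).surjective ⟨z, hz⟩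
  rw [AddCircle.homeomorphCircle_apply] at hx
  have h4 := (ContinuousMap.dist_apply_le_dist (f := v) (g := q) x).trans_lt hqv
  rw [dist_eq_norm, h3] at h4
  have h5 := (abs_re_le_norm _).trans_lt h4
  have hx' : ((AddCircle.toCircle x : Circle) : ℂ) = z := by rw [hx]
  simpa [v, hx'] using h5

/-- The sub-mean value inequality on the unit disc from local holomorphic supports. -/
theorem submean {u : ℂ → ℝ} (hu : ContinuousOn u (closedBall 0 1))
    (hs : ∀ z ∈ ball (0 : ℂ) 1, ∃ g : ℂ → ℂ,
      (∀ᶠ w in 𝓝 z, DifferentiableAt ℂ g w ∧ (g w).re ≤ u w) ∧ (g z).re = u z) :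
    u 0 ≤ (1 / (2 * π)) * ∫ θ in (0 : ℝ)..(2 * π), u (cexp ((θ : ℂ) * I)) := by
  have hav : (1 / (2 * π)) * ∫ θ in (0 : ℝ)..(2 * π), u (cexp ((θ : ℂ) * I)) =
      Real.circleAverage u 0 1 := by
    simp [Real.circleAverage_def, circleMap]
  rw [hav]
  have hu' : ContinuousOn u (sphere 0 1) := hu.mono sphere_subset_closedBall
  apply le_of_forall_pos_le_add
  intro ε hε
  obtain ⟨p, hp, hpu⟩ := exists_entire_approx hu' (half_pos hε)
  have h1 : u 0 ≤ (p 0 + (ε / 2 : ℝ)).re := by
    apply le_re_of_support hu hs (p := fun z => p z + (ε / 2 : ℝ)) (hp.add_const _)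
    intro z hz
    have := abs_lt.mp (hpu z hz)
    simp only [add_re, ofReal_re]
    linarith [this.2]
  have h2 : Real.circleAverage p 0 1 = p 0 := hp.diffContOnCl.circleAverage
  have hpi : CircleIntegrable p 0 1 := hp.continuous.continuousOn.circleIntegrable zero_le_one
  have hui : CircleIntegrable u 0 1 := hu'.circleIntegrable zero_le_one
  have h3 : Real.circleAverage (reCLM ∘ p) 0 1 = (p 0).re := by
    rw [reCLM.circleAverage_comp_comm hpi, h2]; rfl
  have h4 : Real.circleAverage (reCLM ∘ p) 0 1 ≤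
      Real.circleAverage (fun z => u z + ε / 2) 0 1 := by
    apply Real.circleAverage_mono
    · exact (reCLM.continuous.comp hp.continuous).continuousOn.circleIntegrable zero_le_one
    · exact (hu'.add continuousOn_const).circleIntegrable zero_le_one
    · intro z hz
      rw [abs_one] at hz
      have := abs_lt.mp (hpu z hz)
      simp only [Function.comp, reCLM_apply]
      linarith [this.1]
  rw [Real.circleAverage_fun_add hui (circleIntegrable_const _ _ _), Real.circleAverage_const,
    h3] at h4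
  simp only [add_re, ofReal_re] at h1
  linarith

end Pool.Agent.P.MP_97162c_an
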